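import Pool.Agent.ZCQ.Up

/-!
# Automorphisms of `ℚ̄` and points
-/

set_option autoImplicit false

noncomputable section

namespace Pool.Agent.ZCQK

open WeierstrassCurve Pool.Agent.ZC Pool.Agent.ZCQ
open scoped Classical IntermediateField

/-- The action of the automorphisms of `ℚ̄` on the points of a curve over `ℚ`. -/
def gact (W : WeierstrassCurve ℚ) (τ : AlgebraicClosure ℚ ≃ₐ[ℚ] AlgebraicClosure ℚ) :
    (W⁄(AlgebraicClosure ℚ)).toAffine.Point →+ (W⁄(AlgebraicClosure ℚ)).toAffine.Point :=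
  Affine.Point.map (W' := W.toAffine) (S := ℚ) τ.toAlgHom

private theorem isGal : IsGalois ℚ (AlgebraicClosure ℚ) := by
  have h : IsAlgClosure ℚ (AlgebraicClosure ℚ) :=
    ⟨inferInstance, AlgebraicClosure.isAlgebraic ℚ⟩
  exact IsAlgClosure.isGalois ℚ (AlgebraicClosure ℚ)

private theorem rat_of_fixed {x : AlgebraicClosure ℚ}
    (hx : ∀ τ : AlgebraicClosure ℚ ≃ₐ[ℚ] AlgebraicClosure ℚ, τ x = x) :
    ∃ q : ℚ, x = algebraMap ℚ (AlgebraicClosure ℚ) q := by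
  have := isGal
  obtain ⟨q, hq⟩ := (InfiniteGalois.mem_range_algebraMap_iff_fixed (k := ℚ) x).2 hx
  exact ⟨q, hq.symm⟩

/- PROOF. The fixed field of all automorphisms of `ℚ̄` is `ℚ` (`InfiniteGalois`, see
`ZCInf/Gal.lean` for the instance `IsGalois ℚ ℚ̄`), applied to the coordinates; nonsingularity by
`Affine.map_nonsingular`. -/
theorem exists_up_of_fixed (W : WeierstrassCurve ℚ) (P : (W⁄(AlgebraicClosure ℚ)).toAffine.Point)
    (hP : ∀ τ : AlgebraicClosure ℚ ≃ₐ[ℚ] AlgebraicClosure ℚ, gact W τ P = P) :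
    ∃ g : W.toAffine.Point, P = up W g := by
  rcases P with _ | ⟨x, y, h⟩
  · exact ⟨0, rfl⟩
  · have h1 : ∀ τ : AlgebraicClosure ℚ ≃ₐ[ℚ] AlgebraicClosure ℚ, τ x = x ∧ τ y = y := by
      intro τ
      have h3 := hP τ
      have h4 : (τ.toAlgHom x = x ∧ τ.toAlgHom y = y) :=
        (Affine.Point.some.injEq _ _ _ _ _ _).mp h3
      exact h4
    obtain ⟨u, rfl⟩ := rat_of_fixed fun τ => (h1 τ).1
    obtain ⟨v, rfl⟩ := rat_of_fixed fun τ => (h1 τ).2
    have h4 : W.toAffine.Nonsingular u v :=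
      (Affine.map_nonsingular W.toAffine (algebraMap ℚ (AlgebraicClosure ℚ)).injective u v).1 h
    exact ⟨.some u v h4, rfl⟩

/-- an element fixed by all automorphisms is rational -/
theorem exists_rat_of_fixed {x : AlgebraicClosure ℚ}
    (hx : ∀ τ : AlgebraicClosure ℚ ≃ₐ[ℚ] AlgebraicClosure ℚ, τ x = x) :
    ∃ q : ℚ, x = algebraMap ℚ (AlgebraicClosure ℚ) q :=
  rat_of_fixed hx

theorem fix_or_flip {d : ℚ} {s : AlgebraicClosure ℚ}
    (hs : s ^ 2 = algebraMap ℚ (AlgebraicClosure ℚ) d)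
    (τ : AlgebraicClosure ℚ ≃ₐ[ℚ] AlgebraicClosure ℚ) : τ s = s ∨ τ s = -s := by
  refine sq_eq_sq_iff_eq_or_eq_neg.mp ?_
  rw [← map_pow, hs]
  exact τ.commutes d

theorem exists_flip {d : ℚ} (hd : ¬ IsSquare d) {s : AlgebraicClosure ℚ}
    (hs : s ^ 2 = algebraMap ℚ (AlgebraicClosure ℚ) d) :
    ∃ σ : AlgebraicClosure ℚ ≃ₐ[ℚ] AlgebraicClosure ℚ, σ s = -s := by
  by_contra hne
  push Not at hne
  obtain ⟨q, hq⟩ := rat_of_fixed fun τ => (fix_or_flip hs τ).resolve_right (hne τ)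
  refine hd ⟨q, (algebraMap ℚ (AlgebraicClosure ℚ)).injective ?_⟩
  rw [← hs, hq, map_mul, sq]

theorem apply_eq_of_mem {s x : AlgebraicClosure ℚ} (hx : x ∈ ℚ⟮s⟯)
    {τ τ' : AlgebraicClosure ℚ ≃ₐ[ℚ] AlgebraicClosure ℚ} (h : τ s = τ' s) : τ x = τ' x := by
  induction hx using IntermediateField.adjoin_induction with
  | mem y hy =>
    rw [Set.mem_singleton_iff] at hy
    rw [hy, h]
  | algebraMap q => rw [τ.commutes, τ'.commutes]
  | add a b _ _ ha hb => rw [map_add, map_add, ha, hb]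
  | inv a _ ha => rw [map_inv₀, map_inv₀, ha]
  | mul a b _ _ ha hb => rw [map_mul, map_mul, ha, hb]

end Pool.Agent.ZCQK
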