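import Pool.Agent.ZCQK.Loc

/-!
# Square classes of integers and of points
-/

set_option autoImplicit false

namespace Pool.Agent.ZCQK

/- PROOF. `A = A.sign * ∏ q ^ vv q A` over all prime divisors; `t = ∏ q ^ (vv q A / 2)` over those not
in `S` (see `decomp` in ZCQ/E0Classes.lean). -/
theorem exists_decomp {S : Finset ℕ} (hS : ∀ q ∈ S, q.Prime) {A : ℤ} (hA : A ≠ 0)
    (h : ∀ q : ℕ, q.Prime → q ∉ S → Even (vv q A)) :
    ∃ t : ℤ, A = A.sign * (∏ q ∈ S, (q : ℤ) ^ vv q A) * t ^ 2 := by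
  classical
  set P := A.natAbs.primeFactors with hP
  refine ⟨∏ q ∈ P \ S, (q : ℤ) ^ (vv q A / 2), ?_⟩
  have hn : A.natAbs ≠ 0 := Int.natAbs_ne_zero.2 hA
  have h1 : (A.natAbs : ℤ) = ∏ q ∈ S ∪ P, (q : ℤ) ^ vv q A := by
    have h2 := Nat.prod_factorization_pow_eq_self hn
    rw [Finsupp.prod_of_support_subset (s := S ∪ P) _ (by
      rw [Nat.support_factorization]
      exact Finset.subset_union_right) _ (fun _ _ => pow_zero _)] at h2
    have h3 : (((∏ q ∈ S ∪ P, q ^ A.natAbs.factorization q : ℕ)) : ℤ) = (A.natAbs : ℤ) :=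
      congrArg (fun m : ℕ => (m : ℤ)) h2
    rw [← h3]
    push_cast
    rfl
  have h4 : ∏ q ∈ S ∪ P, (q : ℤ) ^ vv q A =
      (∏ q ∈ S, (q : ℤ) ^ vv q A) * ∏ q ∈ P \ S, (q : ℤ) ^ vv q A := by
    rw [← Finset.union_sdiff_self_eq_union, Finset.prod_union Finset.disjoint_sdiff]
  have h5 : ∏ q ∈ P \ S, (q : ℤ) ^ vv q A = (∏ q ∈ P \ S, (q : ℤ) ^ (vv q A / 2)) ^ 2 := by
    rw [← Finset.prod_pow]
    refine Finset.prod_congr rfl fun q hq => ?_
    rw [Finset.mem_sdiff] at hq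
    obtain ⟨m, hm⟩ := h q (Nat.prime_of_mem_primeFactors hq.1) hq.2
    rw [← pow_mul]
    congr 1
    omega
  rw [mul_assoc, ← h5, ← h4, ← h1]
  exact (Int.sign_mul_natAbs A).symm

private theorem legp_prod {l : ℕ} [Fact l.Prime] (S : Finset ℕ) (e : ℕ → ℕ) :
    legendreSym l (∏ q ∈ S, (q : ℤ) ^ e q) = ∏ q ∈ S, legendreSym l (q : ℤ) ^ e q := by
  classical
  induction S using Finset.induction_on with
  | empty => simp [legendreSym.at_one]
  | insert a s ha ih =>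
    rw [Finset.prod_insert ha, Finset.prod_insert ha, legendreSym.mul, ih]
    congr 1
    exact map_pow (legendreSym.hom l) (a : ℤ) (e a)

private theorem legp_sq {l : ℕ} [Fact l.Prime] {t : ℤ} (ht : ¬ (l : ℤ) ∣ t) :
    legendreSym l (t ^ 2) = 1 := by
  apply legendreSym.sq_one'
  rw [Ne, ZMod.intCast_zmod_eq_zero_iff_dvd _ l]
  exact ht

/- PROOF. `uu l` and the symbol are multiplicative; induction or the full factorisation of `A`:
the primes `q ∉ S` have even exponents, and their symbols are `1` or `-1` for `q ≠ l`. -/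
theorem leg_uu {l : ℕ} [Fact l.Prime] {S : Finset ℕ} (hS : ∀ q ∈ S, q.Prime) {A : ℤ} (hA : A ≠ 0)
    (h : ∀ q : ℕ, q.Prime → q ∉ S → Even (vv q A)) :
    legendreSym l (uu l A) =
      legendreSym l A.sign * ∏ q ∈ S.erase l, legendreSym l (q : ℤ) ^ vv q A := by
  classical
  have hl : l.Prime := Fact.out
  have hlZ : Prime (l : ℤ) := Nat.prime_iff_prime_int.1 hl
  obtain ⟨t, ht⟩ := exists_decomp hS hA h
  have ht0 : t ≠ 0 := by
    rintro rfl
    apply hA
    rw [ht]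
    ring
  by_cases hlS : l ∈ S
  · have h1 : A = (l : ℤ) ^ vv l A * (A.sign * (∏ q ∈ S.erase l, (q : ℤ) ^ vv q A) * t ^ 2) := by
      conv_lhs => rw [ht, ← Finset.mul_prod_erase S _ hlS]
      ring
    have h2 : uu l A = A.sign * (∏ q ∈ S.erase l, (q : ℤ) ^ vv q A) * t ^ 2 := by
      have h3 := eq_uu hl hA
      have h4 : (l : ℤ) ^ vv l A * uu l A =
          (l : ℤ) ^ vv l A * (A.sign * (∏ q ∈ S.erase l, (q : ℤ) ^ vv q A) * t ^ 2) := by
        rw [← h3, ← h1]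
      exact mul_left_cancel₀ (pow_ne_zero _ hlZ.ne_zero) h4
    have h5 : ¬ (l : ℤ) ∣ t := by
      intro h6
      apply not_dvd_uu hl hA
      rw [h2]
      exact (h6.trans (dvd_pow_self t two_ne_zero)).mul_left _
    rw [h2, legendreSym.mul, legendreSym.mul, legp_prod, legp_sq h5, mul_one]
  · have h1 : (t : ℤ) = (l : ℤ) ^ vv l t * uu l t := eq_uu hl ht0
    have h2 : ¬ (l : ℤ) ∣ uu l t := not_dvd_uu hl ht0
    have h3 : A = (l : ℤ) ^ (vv l t * 2) *
        (A.sign * (∏ q ∈ S, (q : ℤ) ^ vv q A) * (uu l t) ^ 2) := by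
      conv_lhs => rw [ht, h1]
      ring
    have h4 : ¬ (l : ℤ) ∣ A.sign * (∏ q ∈ S, (q : ℤ) ^ vv q A) * (uu l t) ^ 2 := by
      intro h5
      rcases hlZ.dvd_or_dvd h5 with h6 | h6
      · rcases hlZ.dvd_or_dvd h6 with h7 | h7
        · exact hlZ.not_isUnit (isUnit_of_dvd_unit h7 (Int.isUnit_iff.2 (by
            rcases lt_or_gt_of_ne hA with h | h
            · exact Or.inr (Int.sign_eq_neg_one_of_neg h)
            · exact Or.inl (Int.sign_eq_one_of_pos h))))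
        · obtain ⟨q, hq, hq'⟩ := (hlZ.dvd_finsetProd_iff _).1 h7
          have h8 := hlZ.dvd_of_dvd_pow hq'
          have h9 : l ∣ q := by exact_mod_cast h8
          rw [(Nat.prime_dvd_prime_iff_eq hl (hS q hq)).1 h9] at hlS
          exact hlS hq
      · exact h2 (hlZ.dvd_of_dvd_pow h6)
    obtain ⟨_, h5⟩ := vv_uu_of_eq hl h3 h4
    rw [h5, legendreSym.mul, legendreSym.mul, legp_prod, legp_sq h2, mul_one,
      Finset.erase_eq_of_notMem hlS]

/- PROOF. If `q ∣ A` and `q ∤ B`, `q ∤ C` then the exponent of `q` in `A` is even. -/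
theorem even_vv {q : ℕ} (hq : q.Prime) {A B C f : ℤ} (hA : A ≠ 0) (hB : B ≠ 0) (hC : C ≠ 0)
    (h : f ^ 2 = A * B * C) (H : (q : ℤ) ∣ A → ¬ (q : ℤ) ∣ B ∧ ¬ (q : ℤ) ∣ C) :
    Even (vv q A) := by
  by_cases hqA : (q : ℤ) ∣ A
  · obtain ⟨h1, h2⟩ := H hqA
    have hf : f ≠ 0 := by
      rintro rfl
      have : A * B * C = 0 := by
        rw [← h]
        ring
      exact mul_ne_zero (mul_ne_zero hA hB) hC this
    have h3 : vv q (f * f) = vv q (A * B * C) := by
      rw [← h]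
      congr 1
      ring
    rw [vv_mul hf hf, vv_mul (mul_ne_zero hA hB) hC, vv_mul hA hB, vv_eq_zero h1,
      vv_eq_zero h2] at h3
    exact ⟨vv q f, by omega⟩
  · rw [vv_eq_zero hqA]
    exact Even.zero

end Pool.Agent.ZCQK
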