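import Mathlib

/-!
# Infinitely many quadratic fields
-/

set_option autoImplicit false

noncomputable section

namespace Pool.Agent.ZCQK

open scoped IntermediateField

/-- `K = ℚ(√(130 p))` with a prime `p ≡ 353 mod 57720`. -/
def QF (K : IntermediateField ℚ (AlgebraicClosure ℚ)) : Prop :=
  ∃ (p : ℕ) (s : AlgebraicClosure ℚ), p.Prime ∧ p % 57720 = 353 ∧ s ^ 2 = 130 * p ∧ K = ℚ⟮s⟯

theorem not_isSquare {p : ℕ} (hp : p.Prime) (h : p % 57720 = 353) :
    ¬ IsSquare (130 * p : ℚ) := by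
  have h0 : p ≠ 0 := hp.ne_zero
  intro h1
  have h2 : IsSquare (((130 * p : ℕ) : ℚ)) := by push_cast; exact h1
  rw [Rat.isSquare_natCast_iff] at h2
  obtain ⟨m, hm⟩ := h2
  have h3 : 2 ∣ m := by
    have : 2 ∣ m * m := by rw [← hm]; exact ⟨65 * p, by ring⟩
    rcases (Nat.prime_two.dvd_mul).1 this with h | h <;> exact h
  obtain ⟨c, rfl⟩ := h3
  have h4 : 65 * p = 2 * (c * c) := by nlinarith
  omega

private theorem isAlg : Algebra.IsAlgebraic ℚ (AlgebraicClosure ℚ) :=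
  AlgebraicClosure.isAlgebraic ℚ

theorem QF.finrank {K : IntermediateField ℚ (AlgebraicClosure ℚ)} (h : QF K) :
    Module.finrank ℚ K = 2 := by
  obtain ⟨p, s, hp, hmod, hs, rfl⟩ := h
  have hint : IsIntegral ℚ s := (isAlg.isAlgebraic s).isIntegral
  rw [IntermediateField.adjoin.finrank hint]
  have hirr : Irreducible (Polynomial.X ^ 2 - Polynomial.C (130 * p : ℚ)) := by
    rw [X_pow_sub_C_irreducible_iff_of_prime Nat.prime_two]
    intro b hb
    exact not_isSquare hp hmod ⟨b, by rw [← hb]; ring⟩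
  have hmonic : (Polynomial.X ^ 2 - Polynomial.C (130 * p : ℚ)).Monic :=
    Polynomial.monic_X_pow_sub_C _ two_ne_zero
  have h1 : minpoly ℚ s = Polynomial.X ^ 2 - Polynomial.C (130 * p : ℚ) := by
    refine (minpoly.eq_of_irreducible_of_monic hirr ?_ hmonic).symm
    simp [hs]
  rw [h1, Polynomial.natDegree_X_pow_sub_C]

private theorem exists_lin {d : ℚ} {s x : AlgebraicClosure ℚ}
    (hs : s ^ 2 = algebraMap ℚ (AlgebraicClosure ℚ) d) (hx : x ∈ ℚ⟮s⟯) :
    ∃ u v : ℚ, x = algebraMap ℚ (AlgebraicClosure ℚ) u + algebraMap ℚ (AlgebraicClosure ℚ) v * s := by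
  have hx' : x ∈ Algebra.adjoin ℚ {s} := by
    rw [← IntermediateField.adjoin_simple_toSubalgebra_of_isAlgebraic (isAlg.isAlgebraic s)]
    exact hx
  induction hx' using Algebra.adjoin_induction with
  | mem y hy =>
    rw [Set.mem_singleton_iff] at hy
    exact ⟨0, 1, by simp [hy]⟩
  | algebraMap r => exact ⟨r, 0, by simp⟩
  | add y z hy hz h1 h2 =>
    have hy' : y ∈ ℚ⟮s⟯ := IntermediateField.algebra_adjoin_le_adjoin ℚ {s} hy
    have hz' : z ∈ ℚ⟮s⟯ := IntermediateField.algebra_adjoin_le_adjoin ℚ {s} hz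
    obtain ⟨u, v, h3⟩ := h1 hy'
    obtain ⟨u', v', h4⟩ := h2 hz'
    refine ⟨u + u', v + v', ?_⟩
    rw [h3, h4]
    push_cast [map_add]
    ring
  | mul y z hy hz h1 h2 =>
    have hy' : y ∈ ℚ⟮s⟯ := IntermediateField.algebra_adjoin_le_adjoin ℚ {s} hy
    have hz' : z ∈ ℚ⟮s⟯ := IntermediateField.algebra_adjoin_le_adjoin ℚ {s} hz
    obtain ⟨u, v, h3⟩ := h1 hy'
    obtain ⟨u', v', h4⟩ := h2 hz'
    refine ⟨u * u' + v * v' * d, u * v' + v * u', ?_⟩
    rw [h3, h4]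
    simp only [map_add, map_mul]
    rw [← hs]
    ring

private theorem eq_of_mem {p p' : ℕ} (hp : p.Prime) (hmod : p % 57720 = 353) (hp' : p'.Prime)
    (hmod' : p' % 57720 = 353) {s s' : AlgebraicClosure ℚ} (hs : s ^ 2 = 130 * p)
    (hs' : s' ^ 2 = 130 * p') (h : s' ∈ ℚ⟮s⟯) : p = p' := by
  have hs1 : s ^ 2 = algebraMap ℚ (AlgebraicClosure ℚ) (130 * p) := by rw [hs]; simp
  have hs1' : s' ^ 2 = algebraMap ℚ (AlgebraicClosure ℚ) (130 * p') := by rw [hs']; simp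
  have hinj := (algebraMap ℚ (AlgebraicClosure ℚ)).injective
  have hnr : ∀ r : ℚ, algebraMap ℚ (AlgebraicClosure ℚ) r ≠ s := by
    intro r hr
    apply not_isSquare hp hmod
    refine ⟨r, hinj ?_⟩
    rw [← hs1, map_mul, hr]
    ring
  have hnr' : ∀ r : ℚ, algebraMap ℚ (AlgebraicClosure ℚ) r ≠ s' := by
    intro r hr
    apply not_isSquare hp' hmod'
    refine ⟨r, hinj ?_⟩
    rw [← hs1', map_mul, hr]
    ring
  obtain ⟨u, v, huv⟩ := exists_lin hs1 h
  have key : algebraMap ℚ (AlgebraicClosure ℚ) (2 * u * v) * s =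
      algebraMap ℚ (AlgebraicClosure ℚ) (130 * p' - u ^ 2 - 130 * p * v ^ 2) := by
    rw [map_sub, map_sub, ← hs1', huv, map_mul _ (130 * p : ℚ), ← hs1]
    simp only [map_mul, map_pow, map_ofNat]
    ring
  have h0 : 2 * u * v = 0 := by
    by_contra hne
    refine hnr ((130 * p' - u ^ 2 - 130 * p * v ^ 2) / (2 * u * v)) ?_
    rw [map_div₀, ← key, mul_div_assoc, mul_comm, div_mul_cancel₀]
    intro h2
    exact hne (hinj (by rw [h2, map_zero]))
  have h1 : (130 * p' - u ^ 2 - 130 * p * v ^ 2 : ℚ) = 0 := by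
    apply hinj
    rw [← key, h0, map_zero, zero_mul]
  have hv : v ≠ 0 := by
    rintro rfl
    exact hnr' u (by rw [huv]; simp)
  have hu : u = 0 := by
    rcases mul_eq_zero.1 h0 with h2 | h2
    · rcases mul_eq_zero.1 h2 with h3 | h3
      · norm_num at h3
      · exact h3
    · exact absurd h2 hv
  have h2 : IsSquare (((p * p' : ℕ) : ℚ)) := by
    refine ⟨v * p, ?_⟩
    push_cast
    rw [hu] at h1
    have h3 : (p' : ℚ) = v ^ 2 * p := by linarith
    rw [h3]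
    ring
  rw [Rat.isSquare_natCast_iff] at h2
  obtain ⟨m, hm⟩ := h2
  have h3 : p ∣ m := by
    have : p ∣ m * m := ⟨p', hm.symm⟩
    rcases (hp.dvd_mul).1 this with h | h <;> exact h
  obtain ⟨c, rfl⟩ := h3
  have h4 : p' = p * (c * c) := by
    apply Nat.eq_of_mul_eq_mul_left hp.pos
    rw [hm]
    ring
  exact (Nat.prime_dvd_prime_iff_eq hp hp').1 ⟨_, h4⟩

/- PROOF. Dirichlet: `Nat.infinite_setOf_prime_and_eq_mod` (`353` is a unit mod `57720`). The map
`p ↦ ℚ⟮√(130 p)⟯` is injective: if `s' ∈ ℚ⟮s⟯`, `s² = 130 p`, `s'² = 130 p'`, then `s' = u + v s` with rational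
`u`, `v`, and `2 u v s = 130 p' - u² - 130 p v²` gives `u v = 0`; `v = 0` is impossible (`not_isSquare`), so
`p' = v² p`, `p p'` is a square, `p = p'`. -/
theorem QF_infinite : {K : IntermediateField ℚ (AlgebraicClosure ℚ) | QF K}.Infinite := by
  have hinf : {p : ℕ | p.Prime ∧ p % 57720 = 353}.Infinite := by
    have hu : IsUnit ((353 : ℕ) : ZMod 57720) := by
      rw [ZMod.isUnit_iff_coprime]
      norm_num
    refine (Nat.infinite_setOfPred_prime_and_eq_mod hu).mono fun p hp => ⟨hp.1, ?_⟩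
    have := (ZMod.natCast_eq_natCast_iff' p 353 57720).1 hp.2
    simpa using this
  choose r hr using fun p : ℕ => IsAlgClosed.exists_pow_nat_eq (130 * p : AlgebraicClosure ℚ)
    (n := 2) two_pos
  refine Set.infinite_of_injOn_mapsTo (f := fun p : ℕ => ℚ⟮r p⟯) ?_ ?_ hinf
  · intro p hp p' hp' heq
    refine eq_of_mem hp.1 hp.2 hp'.1 hp'.2 (hr p) (hr p') ?_
    have h1 : r p' ∈ ℚ⟮r p'⟯ := IntermediateField.mem_adjoin_simple_self ℚ (r p')
    have h2 : ℚ⟮r p⟯ = ℚ⟮r p'⟯ := heq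
    rwa [h2]
  · intro p hp
    exact ⟨p, r p, hp.1, hp.2, hr p, rfl⟩

end Pool.Agent.ZCQK
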