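import Pool.Agent.ZCQK.Gal1

/-!
# Points over quadratic fields and rational points of the twist
-/

set_option autoImplicit false

noncomputable section

namespace Pool.Agent.ZCQK

open WeierstrassCurve Pool.Agent.ZC Pool.Agent.ZCQ
open scoped Classical IntermediateField

private theorem gact_some' (W : WeierstrassCurve ℚ)
    (τ : AlgebraicClosure ℚ ≃ₐ[ℚ] AlgebraicClosure ℚ) {x y : AlgebraicClosure ℚ}
    (h : (W⁄(AlgebraicClosure ℚ)).toAffine.Nonsingular x y) :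
    ∃ h', gact W τ (.some x y h) = .some (τ x) (τ y) h' := ⟨_, rfl⟩

private theorem gact_some_eq (W : WeierstrassCurve ℚ)
    (τ : AlgebraicClosure ℚ ≃ₐ[ℚ] AlgebraicClosure ℚ) {x y x' y' : AlgebraicClosure ℚ}
    (h : (W⁄(AlgebraicClosure ℚ)).toAffine.Nonsingular x y)
    (h' : (W⁄(AlgebraicClosure ℚ)).toAffine.Nonsingular x' y') :
    gact W τ (.some x y h) = .some x' y' h' ↔ τ x = x' ∧ τ y = y' := by
  obtain ⟨h1, h2⟩ := gact_some' W τ h
  rw [h2, Affine.Point.some.injEq]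

private theorem up_nsmul' (W : WeierstrassCurve ℚ) (P : W.toAffine.Point) (k : ℕ) :
    up W (k • P) = k • up W P := by
  induction k with
  | zero => rw [zero_nsmul, zero_nsmul]; rfl
  | succ k ih => rw [succ_nsmul, succ_nsmul, up_add, ih]

/- PROOF. Let `R = (X, Y)` (for `R = 0` take `k = 1`). `X` and `Y / s` are fixed by all `τ` (`fix_or_flip`;
`-R = (X, -Y)` as `a₁ = a₃ = 0`; `s ≠ 0`), so rational by `exists_rat_of_fixed`: `X = x'`, `Y = s v`. The
substitution `(X, Y) ↦ (w² X, w³ Y)` with `w = c s`, `w² = c² d`, is a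
`Pool.Agent.ZC.IsoChg ((cc a b)⁄ℚ̄) ((cc (c²da) (c²db))⁄ℚ̄) w 0 0 0` (`ZC/Iso.lean`), and maps `R` to
`(c² d x', c³ d² v)`, the image under `up` of a rational point `R'`. Use `htors R'`, `IsoChg.hom`,
`IsoChg.fn_injective`, `up_add`. -/
theorem torsion_of_flip {a b c d : ℚ} (ha : a ≠ 0) (hb : b ≠ 0) (hab : a ≠ b) (hc : c ≠ 0)
    (hd : ¬ IsSquare d) {s : AlgebraicClosure ℚ}
    (hs : s ^ 2 = algebraMap ℚ (AlgebraicClosure ℚ) d)
    (htors : ∀ R : (cc (c ^ 2 * d * a) (c ^ 2 * d * b)).toAffine.Point, ∃ k : ℕ, 0 < k ∧ k • R = 0)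
    (R : ((cc a b)⁄(AlgebraicClosure ℚ)).toAffine.Point)
    (h1 : ∀ τ : AlgebraicClosure ℚ ≃ₐ[ℚ] AlgebraicClosure ℚ, τ s = s → gact (cc a b) τ R = R)
    (h2 : ∀ τ : AlgebraicClosure ℚ ≃ₐ[ℚ] AlgebraicClosure ℚ, τ s = -s → gact (cc a b) τ R = -R) :
    ∃ k : ℕ, 0 < k ∧ k • R = 0 := by
  have hinj := (algebraMap ℚ (AlgebraicClosure ℚ)).injective
  set f := algebraMap ℚ (AlgebraicClosure ℚ) with hf
  have hd0 : d ≠ 0 := by
    rintro rfl
    exact hd ⟨0, by norm_num⟩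
  have fd0 : f d ≠ 0 := (map_ne_zero f).2 hd0
  have fc0 : f c ≠ 0 := (map_ne_zero f).2 hc
  have hs0 : s ≠ 0 := by
    rintro rfl
    apply fd0
    rw [← hs]
    ring
  rcases R with _ | ⟨X, Y, hR⟩
  · exact ⟨1, one_pos, by rw [one_nsmul]; rfl⟩
  have hfix : ∀ τ : AlgebraicClosure ℚ ≃ₐ[ℚ] AlgebraicClosure ℚ,
      τ s = s → τ X = X ∧ τ Y = Y := fun τ hτ => (gact_some_eq _ τ hR hR).1 (h1 τ hτ)
  have hflip : ∀ τ : AlgebraicClosure ℚ ≃ₐ[ℚ] AlgebraicClosure ℚ,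
      τ s = -s → τ X = X ∧ τ Y = -Y := by
    intro τ hτ
    have h3 := h2 τ hτ
    rw [Affine.Point.neg_some] at h3
    have h4 := (gact_some_eq _ τ hR _).1 h3
    refine ⟨h4.1, h4.2.trans ?_⟩
    simp [Affine.negY, cc, WeierstrassCurve.baseChange, WeierstrassCurve.map]
  obtain ⟨x', hx'⟩ := exists_rat_of_fixed (x := X) fun τ => by
    rcases fix_or_flip hs τ with h | h
    · exact (hfix τ h).1
    · exact (hflip τ h).1
  obtain ⟨v, hv⟩ := exists_rat_of_fixed (x := Y / s) fun τ => by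
    rw [map_div₀]
    rcases fix_or_flip hs τ with h | h
    · rw [h, (hfix τ h).2]
    · rw [h, (hflip τ h).2, neg_div_neg_eq]
  rw [← hf] at hx' hv
  have hY : Y = f v * s := by rw [← hv, div_mul_cancel₀ _ hs0]
  have hrts := cc_rts ha hb hab
  have hcd : c ^ 2 * d ≠ 0 := mul_ne_zero (pow_ne_zero 2 hc) hd0
  have hrts' : Rts (cc (c ^ 2 * d * a) (c ^ 2 * d * b)) 0 (c ^ 2 * d * a) (c ^ 2 * d * b) :=
    cc_rts (mul_ne_zero hcd ha) (mul_ne_zero hcd hb) fun h => hab (mul_left_cancel₀ hcd h)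
  have hE := hR.1
  rw [Affine.equation_iff] at hE
  simp only [cc, WeierstrassCurve.baseChange, WeierstrassCurve.map, map_zero, map_neg, map_add,
    map_mul] at hE
  rw [hY, hx'] at hE
  have hv2 : v ^ 2 * d = x' * (x' - a) * (x' - b) := by
    apply hinj
    simp only [map_mul, map_pow, map_sub]
    rw [← hs]
    linear_combination hE
  have hns : (cc (c ^ 2 * d * a) (c ^ 2 * d * b)).toAffine.Nonsingular (c ^ 2 * d * x')
      (c ^ 3 * d ^ 2 * v) := by
    rw [hrts'.nonsingular_iff]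
    linear_combination (c ^ 6 * d ^ 3) * hv2
  have hΔ : ((cc (c ^ 2 * d * a) (c ^ 2 * d * b))⁄(AlgebraicClosure ℚ)).Δ ≠ 0 := by
    rw [WeierstrassCurve.baseChange, WeierstrassCurve.map_Δ, Ne, map_eq_zero]
    exact hrts'.Δ_ne_zero
  have hI : IsoChg ((cc a b)⁄(AlgebraicClosure ℚ))
      ((cc (c ^ 2 * d * a) (c ^ 2 * d * b))⁄(AlgebraicClosure ℚ)) (f c * s) 0 0 0 := by
    refine ⟨mul_ne_zero fc0 hs0, ?_, ?_, ?_, ?_, ?_⟩
    · simp [cc, WeierstrassCurve.baseChange, WeierstrassCurve.map]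
    · simp only [cc, WeierstrassCurve.baseChange, WeierstrassCurve.map, map_neg, map_add, map_mul,
        map_pow, map_zero]
      rw [← hf, mul_pow, hs]
      ring
    · simp [cc, WeierstrassCurve.baseChange, WeierstrassCurve.map]
    · simp only [cc, WeierstrassCurve.baseChange, WeierstrassCurve.map, map_neg, map_add, map_mul,
        map_pow, map_zero]
      rw [← hf, show (f c * s) ^ 4 = f c ^ 4 * (s ^ 2) ^ 2 by ring, hs]
      ring
    · simp [cc, WeierstrassCurve.baseChange, WeierstrassCurve.map]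
  obtain ⟨k, hk, hk'⟩ := htors (.some _ _ hns)
  refine ⟨k, hk, ?_⟩
  apply hI.fn_injective hΔ
  have h3 : hI.hom hΔ (.some X Y hR) = up _ (.some _ _ hns) := by
    change hI.fn hΔ (.some X Y hR) = up _ (.some _ _ hns)
    rw [IsoChg.fn_some]
    change _ = Affine.Point.some _ _ _
    rw [Affine.Point.some.injEq]
    refine ⟨?_, ?_⟩
    · rw [← hf, hx', mul_pow, hs]
      simp only [map_mul, map_pow]
      ring
    · rw [← hf, hY, show (f c * s) ^ 3 * (f v * s) = f c ^ 3 * (s ^ 2) ^ 2 * f v by ring, hs]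
      simp only [map_mul, map_pow]
      ring
  change hI.hom hΔ (k • _) = hI.hom hΔ 0
  rw [map_nsmul, h3, ← up_nsmul', hk', map_zero]
  rfl

/- PROOF. Let `P = (x, y)`, `σ` as in `exists_flip`. By `apply_eq_of_mem` every `τ` with `τ s = s` fixes
`P` and `σ P`, every `τ` with `τ s = -s` exchanges them (`fix_or_flip`). So `P + σ P = up g`
(`exists_up_of_fixed`) and `R = P - σ P` is torsion by `torsion_of_flip`: `k R = 0`, and
`2 k P = k (P + σ P) = up (k g)`. -/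
theorem mul_eq_up {a b c d : ℚ} (ha : a ≠ 0) (hb : b ≠ 0) (hab : a ≠ b) (hc : c ≠ 0)
    (hd : ¬ IsSquare d) {s : AlgebraicClosure ℚ}
    (hs : s ^ 2 = algebraMap ℚ (AlgebraicClosure ℚ) d)
    (htors : ∀ R : (cc (c ^ 2 * d * a) (c ^ 2 * d * b)).toAffine.Point, ∃ k : ℕ, 0 < k ∧ k • R = 0)
    {x y : AlgebraicClosure ℚ} (hx : x ∈ ℚ⟮s⟯) (hy : y ∈ ℚ⟮s⟯)
    (h : ((cc a b)⁄(AlgebraicClosure ℚ)).toAffine.Nonsingular x y) :
    ∃ (k : ℕ) (g : (cc a b).toAffine.Point), 0 < k ∧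
      k • (Affine.Point.some x y h : ((cc a b)⁄(AlgebraicClosure ℚ)).toAffine.Point) =
        up (cc a b) g := by
  obtain ⟨σ, hσ⟩ := exists_flip hd hs
  set P : ((cc a b)⁄(AlgebraicClosure ℚ)).toAffine.Point := Affine.Point.some x y h with hP
  obtain ⟨h', hσP⟩ := gact_some' (cc a b) σ h
  rw [← hP] at hσP
  have hfix : ∀ τ : AlgebraicClosure ℚ ≃ₐ[ℚ] AlgebraicClosure ℚ, τ s = s →
      gact (cc a b) τ P = P ∧ gact (cc a b) τ (gact (cc a b) σ P) = gact (cc a b) σ P := by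
    intro τ hτ
    have e1 : τ s = (AlgEquiv.refl : AlgebraicClosure ℚ ≃ₐ[ℚ] AlgebraicClosure ℚ) s := hτ
    have e2 : (σ.trans τ) s = σ s := by
      rw [AlgEquiv.trans_apply, hσ, map_neg, hτ]
    constructor
    · rw [hP, gact_some_eq]
      exact ⟨apply_eq_of_mem hx e1, apply_eq_of_mem hy e1⟩
    · rw [hσP, gact_some_eq]
      exact ⟨apply_eq_of_mem hx e2, apply_eq_of_mem hy e2⟩
  have hflip : ∀ τ : AlgebraicClosure ℚ ≃ₐ[ℚ] AlgebraicClosure ℚ, τ s = -s →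
      gact (cc a b) τ P = gact (cc a b) σ P ∧ gact (cc a b) τ (gact (cc a b) σ P) = P := by
    intro τ hτ
    have e1 : τ s = σ s := by rw [hτ, hσ]
    have e2 : (σ.trans τ) s = (AlgEquiv.refl : AlgebraicClosure ℚ ≃ₐ[ℚ] AlgebraicClosure ℚ) s := by
      rw [AlgEquiv.trans_apply, hσ, map_neg, hτ, neg_neg]
      rfl
    constructor
    · rw [hσP, hP, gact_some_eq]
      exact ⟨apply_eq_of_mem hx e1, apply_eq_of_mem hy e1⟩
    · rw [hσP, hP, gact_some_eq]
      exact ⟨apply_eq_of_mem hx e2, apply_eq_of_mem hy e2⟩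
  obtain ⟨g, hg⟩ := exists_up_of_fixed (cc a b) (P + gact (cc a b) σ P) fun τ => by
    rw [map_add]
    rcases fix_or_flip hs τ with h3 | h3
    · rw [(hfix τ h3).1, (hfix τ h3).2]
    · rw [(hflip τ h3).1, (hflip τ h3).2, add_comm]
  obtain ⟨k, hk, hk'⟩ := torsion_of_flip ha hb hab hc hd hs htors (P - gact (cc a b) σ P)
    (fun τ h3 => by rw [map_sub, (hfix τ h3).1, (hfix τ h3).2])
    (fun τ h3 => by rw [map_sub, (hflip τ h3).1, (hflip τ h3).2, neg_sub])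
  refine ⟨k + k, k • g, by omega, ?_⟩
  rw [up_nsmul', ← hg]
  have h4 : (k + k) • P = k • (P + gact (cc a b) σ P) + k • (P - gact (cc a b) σ P) := by
    rw [← nsmul_add, add_nsmul, ← nsmul_add]
    congr 1
    abel
  rw [h4, hk', add_zero]

end Pool.Agent.ZCQK
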