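import Pool.Agent.ZCQK.Loc

/-!
# The local condition at a prime which divides all three differences exactly once
-/

set_option autoImplicit false

namespace Pool.Agent.ZCQK

private theorem tw_congr {p : ℕ} [Fact p.Prime] {a b : ℤ} (h : (p : ℤ) ∣ a - b) :
    legendreSym p a = legendreSym p b := by
  have h1 : ((a : ℤ) : ZMod p) = ((b : ℤ) : ZMod p) := by
    have h2 := (ZMod.intCast_zmod_eq_zero_iff_dvd (a - b) p).2 h
    rw [Int.cast_sub, sub_eq_zero] at h2
    exact h2
  unfold legendreSym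
  rw [h1]

private theorem tw_ne {p : ℕ} [Fact p.Prime] {a : ℤ} (h : ¬ (p : ℤ) ∣ a) :
    ((a : ℤ) : ZMod p) ≠ 0 := fun h1 => h ((ZMod.intCast_zmod_eq_zero_iff_dvd a p).1 h1)

private theorem tw_mul_sq {p : ℕ} [Fact p.Prime] {e : ℤ} (he : ¬ (p : ℤ) ∣ e) {a c : ℤ}
    (h : (p : ℤ) ∣ a - c * e ^ 2) : legendreSym p a = legendreSym p c := by
  rw [tw_congr h, legendreSym.mul, legendreSym.sq_one' p (tw_ne he), mul_one]

private theorem tw_one {p : ℕ} [Fact p.Prime] {a : ℤ} (h : ¬ (p : ℤ) ∣ a) :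
    legendreSym p a * legendreSym p a = 1 := by
  rw [← sq]
  exact legendreSym.sq_one p (tw_ne h)

private theorem tw_not_dvd {p : ℕ} (hp : p.Prime) {c e : ℤ} (hc : ¬ (p : ℤ) ∣ c)
    (he : ¬ (p : ℤ) ∣ e) : ¬ (p : ℤ) ∣ c * e ^ 2 := by
  have hp' := Nat.prime_iff_prime_int.1 hp
  intro h
  rcases hp'.dvd_or_dvd h with h1 | h1
  · exact hc h1
  · exact he (hp'.dvd_of_dvd_pow h1)

/- PROOF. If `p ∤ A` then `A ≡ B ≡ C mod p`, all three are prime to `p` and by `h` the symbol is `1`
(first case). If `p ∣ A` then `p ∤ e`, `A = p a`, `B = p b`, `C = p c`, `a - b = α e²`, `a - c = β e²`; `vv p (a b c)`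
is odd, `a, b, c` are pairwise incongruent mod `p`, so exactly one of them is divisible by `p`. If it is `a`:
`b ≡ -α e²`, `c ≡ -β e²`: second case (symbol of `uu p A` by the product). If it is `b`: `a ≡ α e²`,
`c ≡ (α - β) e²`: third case. If it is `c`: `a ≡ β e²`, `b ≡ (β - α) e²`: fourth case. -/
theorem loc_tw {p : ℕ} [Fact p.Prime] {A B C e f α β : ℤ} (hA : A ≠ 0) (hB : B ≠ 0)
    (hC : C ≠ 0) (h : f ^ 2 = A * B * C) (hAB : A - B = p * α * e ^ 2)
    (hAC : A - C = p * β * e ^ 2) (hα : ¬ (p : ℤ) ∣ α) (hβ : ¬ (p : ℤ) ∣ β)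
    (hαβ : ¬ (p : ℤ) ∣ α - β) (he : (p : ℤ) ∣ e → ¬ (p : ℤ) ∣ A) :
    (Even (vv p A) ∧ Even (vv p B) ∧ legendreSym p (uu p A) = 1 ∧
      legendreSym p (uu p B) = 1) ∨
    (Even (vv p A) ∧ ¬ Even (vv p B) ∧ legendreSym p (uu p A) = legendreSym p (α * β) ∧
      legendreSym p (uu p B) = legendreSym p (-α)) ∨
    (¬ Even (vv p A) ∧ Even (vv p B) ∧ legendreSym p (uu p A) = legendreSym p α ∧
      legendreSym p (uu p B) = legendreSym p (α * (α - β))) ∨
    (¬ Even (vv p A) ∧ ¬ Even (vv p B) ∧ legendreSym p (uu p A) = legendreSym p β ∧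
      legendreSym p (uu p B) = legendreSym p (β - α)) := by
  have hp : p.Prime := Fact.out
  have hpi : Prime (p : ℤ) := Nat.prime_iff_prime_int.1 hp
  have hf : f ≠ 0 := by
    rintro rfl
    rw [zero_pow two_ne_zero] at h
    exact mul_ne_zero (mul_ne_zero hA hB) hC h.symm
  have hv : vv p f + vv p f = vv p A + vv p B + vv p C := by
    have h1 := congrArg (vv p) h
    rwa [pow_two, vv_mul hf hf, vv_mul (mul_ne_zero hA hB) hC, vv_mul hA hB] at h1
  have hleg : legendreSym p (uu p A) * legendreSym p (uu p B) * legendreSym p (uu p C) = 1 := by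
    have h1 := congrArg (uu p) h
    rw [pow_two, uu_mul hf hf, uu_mul (mul_ne_zero hA hB) hC, uu_mul hA hB] at h1
    rw [← legendreSym.mul, ← legendreSym.mul, ← h1, legendreSym.mul]
    exact tw_one (not_dvd_uu hp hf)
  by_cases hpA : (p : ℤ) ∣ A
  swap
  · left
    have hpB : ¬ (p : ℤ) ∣ B := by
      intro h1
      apply hpA
      have h2 : A = B + p * (α * e ^ 2) := by linear_combination hAB
      rw [h2]
      exact dvd_add h1 (dvd_mul_right _ _)
    have hpC : ¬ (p : ℤ) ∣ C := by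
      intro h1
      apply hpA
      have h2 : A = C + p * (β * e ^ 2) := by linear_combination hAC
      rw [h2]
      exact dvd_add h1 (dvd_mul_right _ _)
    have uA : uu p A = A := (vv_uu_of_eq (k := 0) hp (by rw [pow_zero, one_mul]) hpA).2
    have uB : uu p B = B := (vv_uu_of_eq (k := 0) hp (by rw [pow_zero, one_mul]) hpB).2
    have uC : uu p C = C := (vv_uu_of_eq (k := 0) hp (by rw [pow_zero, one_mul]) hpC).2
    have lB : legendreSym p B = legendreSym p A :=
      tw_congr ⟨-(α * e ^ 2), by linear_combination -hAB⟩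
    have lC : legendreSym p C = legendreSym p A :=
      tw_congr ⟨-(β * e ^ 2), by linear_combination -hAC⟩
    rw [uA, uB, uC, lB, lC, tw_one hpA, one_mul] at hleg
    refine ⟨by rw [vv_eq_zero hpA]; exact Even.zero, by rw [vv_eq_zero hpB]; exact Even.zero, ?_, ?_⟩
    · rw [uA, hleg]
    · rw [uB, lB, hleg]
  right
  have he' : ¬ (p : ℤ) ∣ e := fun h1 => he h1 hpA
  obtain ⟨a, ha⟩ := hpA
  have hA1 : A = p ^ 1 * a := by rw [pow_one, ha]
  have hB1 : B = p ^ 1 * (a - α * e ^ 2) := by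
    rw [pow_one]
    linear_combination ha - hAB
  have hC1 : C = p ^ 1 * (a - β * e ^ 2) := by
    rw [pow_one]
    linear_combination ha - hAC
  by_cases h1 : (p : ℤ) ∣ a
  · left
    have hb : ¬ (p : ℤ) ∣ a - α * e ^ 2 := fun h2 => by
      have h3 := dvd_sub h1 h2
      rw [sub_sub_cancel] at h3
      exact tw_not_dvd hp hα he' h3
    have hc : ¬ (p : ℤ) ∣ a - β * e ^ 2 := fun h2 => by
      have h3 := dvd_sub h1 h2
      rw [sub_sub_cancel] at h3
      exact tw_not_dvd hp hβ he' h3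
    obtain ⟨vB, uB⟩ := vv_uu_of_eq hp hB1 hb
    obtain ⟨vC, uC⟩ := vv_uu_of_eq hp hC1 hc
    have lB : legendreSym p (uu p B) = legendreSym p (-α) := by
      rw [uB]
      refine tw_mul_sq he' ?_
      rw [neg_mul, sub_neg_eq_add, sub_add_cancel]
      exact h1
    have lC : legendreSym p (uu p C) = legendreSym p (-β) := by
      rw [uC]
      refine tw_mul_sq he' ?_
      rw [neg_mul, sub_neg_eq_add, sub_add_cancel]
      exact h1
    have hα' : ¬ (p : ℤ) ∣ -α := by rwa [dvd_neg]
    have hβ' : ¬ (p : ℤ) ∣ -β := by rwa [dvd_neg]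
    refine ⟨⟨vv p f - 1, by omega⟩, by rw [vB]; decide, ?_, lB⟩
    have h2 : legendreSym p (α * β) = legendreSym p (-α) * legendreSym p (-β) := by
      rw [← legendreSym.mul, neg_mul_neg]
    rw [h2]
    rw [lB, lC] at hleg
    have h3 := tw_one hα'
    have h4 := tw_one hβ'
    calc legendreSym p (uu p A) = legendreSym p (uu p A) *
          (legendreSym p (-α) * legendreSym p (-α)) * (legendreSym p (-β) * legendreSym p (-β)) := by
          rw [h3, h4, mul_one, mul_one]
      _ = (legendreSym p (uu p A) * legendreSym p (-α) * legendreSym p (-β)) *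
          (legendreSym p (-α) * legendreSym p (-β)) := by ring
      _ = _ := by rw [hleg, one_mul]
  right
  obtain ⟨vA, uA⟩ := vv_uu_of_eq hp hA1 h1
  by_cases h2 : (p : ℤ) ∣ a - α * e ^ 2
  · left
    have hc : ¬ (p : ℤ) ∣ a - β * e ^ 2 := fun h3 => by
      have h4 := dvd_sub h3 h2
      have h5 : a - β * e ^ 2 - (a - α * e ^ 2) = (α - β) * e ^ 2 := by ring
      rw [h5] at h4
      exact tw_not_dvd hp hαβ he' h4
    obtain ⟨vC, uC⟩ := vv_uu_of_eq hp hC1 hc
    have lA : legendreSym p (uu p A) = legendreSym p α := by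
      rw [uA]
      exact tw_mul_sq he' h2
    have lC : legendreSym p (uu p C) = legendreSym p (α - β) := by
      rw [uC]
      refine tw_mul_sq he' ?_
      have h5 : a - β * e ^ 2 - (α - β) * e ^ 2 = a - α * e ^ 2 := by ring
      rw [h5]
      exact h2
    refine ⟨by rw [vA]; decide, ⟨vv p f - 1, by omega⟩, lA, ?_⟩
    rw [legendreSym.mul]
    rw [lA, lC] at hleg
    have h3 := tw_one hα
    have h4 := tw_one hαβ
    calc legendreSym p (uu p B) = legendreSym p (uu p B) *
          (legendreSym p α * legendreSym p α) *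
            (legendreSym p (α - β) * legendreSym p (α - β)) := by
          rw [h3, h4, mul_one, mul_one]
      _ = (legendreSym p α * legendreSym p (uu p B) * legendreSym p (α - β)) *
          (legendreSym p α * legendreSym p (α - β)) := by ring
      _ = _ := by rw [hleg, one_mul]
  · right
    obtain ⟨vB, uB⟩ := vv_uu_of_eq hp hB1 h2
    have h3 : (p : ℤ) ∣ a - β * e ^ 2 := by
      by_contra h4
      obtain ⟨vC, -⟩ := vv_uu_of_eq hp hC1 h4
      omega
    refine ⟨by rw [vA]; decide, by rw [vB]; decide, ?_, ?_⟩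
    · rw [uA]
      exact tw_mul_sq he' h3
    · rw [uB]
      refine tw_mul_sq he' ?_
      have h5 : a - α * e ^ 2 - (β - α) * e ^ 2 = a - β * e ^ 2 := by ring
      rw [h5]
      exact h3

end Pool.Agent.ZCQK
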