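import Mathlib

/-!
# Integral coordinates; the symbols modulo `p`
-/

set_option autoImplicit false

namespace Pool.Agent.ZCQK

/- PROOF. As in ZCQ/E0Classes.lean (end of the file): `x = m / n` in lowest terms; `n * (m (m - a n) (m - b n))` is
a square and `n` is prime to the second factor, so `n = e²`, `m (m - a e²) (m - b e²) = f²`
(`Int.sq_of_isCoprime`). -/
theorem exists_int {a b : ℤ} {x y : ℚ} (h : y ^ 2 = x * (x - a) * (x - b)) :
    ∃ m e f : ℤ, IsCoprime m e ∧ e ≠ 0 ∧ x * (e : ℚ) ^ 2 = m ∧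
      f ^ 2 = m * (m - a * e ^ 2) * (m - b * e ^ 2) := by
  obtain ⟨m, hm⟩ : ∃ m : ℤ, m = x.num := ⟨_, rfl⟩
  obtain ⟨n, hn⟩ : ∃ n : ℤ, n = (x.den : ℤ) := ⟨_, rfl⟩
  have hn0 : 0 < n := by rw [hn]; exact_mod_cast x.den_pos
  have hnq : (n : ℚ) ≠ 0 := by exact_mod_cast hn0.ne'
  have hxmn : x = m / n := by
    rw [hm, hn]
    exact_mod_cast (Rat.num_div_den x).symm
  have hcop : IsCoprime n m := by
    rw [hm, hn]
    exact (Rat.isCoprime_num_den x).symm
  -- the denominator is a square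
  have hN : IsSquare (n * (m * (m - a * n) * (m - b * n))) := by
    rw [← Rat.isSquare_intCast_iff]
    refine ⟨y * n ^ 2, ?_⟩
    have h1 : y * n ^ 2 * (y * n ^ 2) = y ^ 2 * n ^ 4 := by ring
    rw [h1, h, hxmn]
    push_cast
    field_simp
  obtain ⟨g, hg⟩ := hN
  have hcop2 : IsCoprime n (m * (m - a * n) * (m - b * n)) := by
    refine (hcop.mul_right ?_).mul_right ?_
    · have h1 := IsCoprime.add_mul_left_right hcop (-a)
      have h2 : m + n * -a = m - a * n := by ring
      rwa [h2] at h1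
    · have h1 := IsCoprime.add_mul_left_right hcop (-b)
      have h2 : m + n * -b = m - b * n := by ring
      rwa [h2] at h1
  rw [← pow_two] at hg
  obtain ⟨e, he⟩ := Int.sq_of_isCoprime hcop2 hg
  have hen : n = e ^ 2 := by
    rcases he with he | he
    · exact he
    · nlinarith [sq_nonneg e]
  obtain ⟨f, hf⟩ := Int.sq_of_isCoprime hcop2.symm (by rw [mul_comm]; exact hg)
  have hfn : f ^ 2 = m * (m - a * e ^ 2) * (m - b * e ^ 2) := by
    rcases hf with hf | hf
    · rw [← hf, hen]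
    · rw [← hen]
      have h2 : 0 ≤ m * (m - a * n) * (m - b * n) := by
        by_contra h3
        push Not at h3
        nlinarith [sq_nonneg g]
      have h3 : f ^ 2 = 0 := by nlinarith [sq_nonneg f]
      rw [hf, h3, neg_zero]
  have he0 : e ≠ 0 := by
    rintro rfl
    rw [hen] at hn0
    simp at hn0
  have heq : (e : ℚ) ≠ 0 := by exact_mod_cast he0
  refine ⟨m, e, f, ?_, he0, ?_, hfn⟩
  · rw [hen, pow_two] at hcop
    exact hcop.symm.of_mul_right_left
  · rw [hxmn, hen]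
    push_cast
    field_simp

theorem isSquare_of_int {N : ℤ} (h : IsSquare N) {e q : ℚ} (he : e ≠ 0) (hq : q * e ^ 2 = N) :
    IsSquare q := by
  obtain ⟨w, rfl⟩ := h
  refine ⟨w / e, ?_⟩
  push_cast at hq
  field_simp
  linarith

private theorem leg_aux {p q : ℕ} [Fact p.Prime] [Fact q.Prime] (hp : p % 4 = 1) (hq : q ≠ 2)
    {r : ℕ} (hr : p % q = r) (h : legendreSym q r = -1) : legendreSym p q = -1 := by
  rw [← legendreSym.quadratic_reciprocity_one_mod_four hp hq, legendreSym.mod, ← h]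
  congr 1
  rw [← hr]
  push_cast
  rfl

/- PROOF. Quadratic reciprocity; `p ≡ 353 mod 57720`, `57720 = 8 * 3 * 5 * 13 * 37`: `p ≡ 1 mod 8` and `p` is
not a square mod `3, 5, 13, 37` (`353 ≡ 2 mod 3`, `3 mod 5`, `2 mod 13`, `20 mod 37`). -/
theorem leg_p {p : ℕ} [Fact p.Prime] (h : p % 57720 = 353) :
    legendreSym p (-1) = 1 ∧ legendreSym p 2 = 1 ∧ legendreSym p 3 = -1 ∧ legendreSym p 5 = -1 ∧
      legendreSym p 13 = -1 ∧ legendreSym p 37 = -1 := by
  have hp2 : p ≠ 2 := by
    rintro rfl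
    norm_num at h
  have h4 : p % 4 = 1 := by omega
  have h8 : p % 8 = 1 := by omega
  have : Fact (Nat.Prime 3) := ⟨by norm_num⟩
  have : Fact (Nat.Prime 5) := ⟨by norm_num⟩
  have : Fact (Nat.Prime 13) := ⟨by norm_num⟩
  have : Fact (Nat.Prime 37) := ⟨by norm_num⟩
  refine ⟨?_, ?_, ?_, ?_, ?_, ?_⟩
  · rw [legendreSym.at_neg_one hp2, ZMod.χ₄_nat_one_mod_four h4]
  · rw [legendreSym.at_two hp2, ZMod.χ₈_nat_eq_if_mod_eight, h8]
    norm_num
    omega
  · exact leg_aux (q := 3) h4 (by norm_num) (show p % 3 = 2 by omega) (by norm_num)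
  · exact leg_aux (q := 5) h4 (by norm_num) (show p % 5 = 3 by omega) (by norm_num)
  · exact leg_aux (q := 13) h4 (by norm_num) (show p % 13 = 2 by omega) (by norm_num)
  · exact leg_aux (q := 37) h4 (by norm_num) (show p % 37 = 20 by omega) (by norm_num)

end Pool.Agent.ZCQK
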