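import Pool.Agent.ZCQK.Loc

/-!
# A condition at the prime two
-/

set_option autoImplicit false

namespace Pool.Agent.ZCQK

private theorem two_odd {A : ℤ} (hA : A ≠ 0) : uu 2 A % 2 = 1 := by
  have h := not_dvd_uu Nat.prime_two hA
  push_cast at h
  omega

private theorem two_sq {x : ℤ} (hx : x % 2 = 1) : x ^ 2 % 8 = 1 := by
  have h : x % 8 = 1 ∨ x % 8 = 3 ∨ x % 8 = 5 ∨ x % 8 = 7 := by omega
  rw [pow_two, Int.mul_emod]
  rcases h with h | h | h | h <;> rw [h] <;> norm_num

private theorem two_mul3 (x y z : ℤ) : x * y * z % 8 = (x % 8) * (y % 8) * (z % 8) % 8 := by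
  simp [Int.mul_emod]

private theorem two_prod {A B C f : ℤ} (hA : A ≠ 0) (hB : B ≠ 0) (hC : C ≠ 0)
    (h : f ^ 2 = A * B * C) :
    (vv 2 A + vv 2 B + vv 2 C) % 2 = 0 ∧ (uu 2 A % 8) * (uu 2 B % 8) * (uu 2 C % 8) % 8 = 1 := by
  have hAB : A * B ≠ 0 := mul_ne_zero hA hB
  have hf : f ≠ 0 := by
    rintro rfl
    have : A * B * C ≠ 0 := mul_ne_zero hAB hC
    apply this
    rw [← h]
    norm_num
  have h1 : vv 2 (f ^ 2) = vv 2 f + vv 2 f := by rw [pow_two, vv_mul hf hf]
  have h2 : uu 2 (f ^ 2) = uu 2 f ^ 2 := by rw [pow_two, uu_mul hf hf, pow_two]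
  rw [h, vv_mul hAB hC, vv_mul hA hB] at h1
  rw [h, uu_mul hAB hC, uu_mul hA hB] at h2
  refine ⟨by omega, ?_⟩
  rw [← two_mul3, h2]
  exact two_sq (two_odd hf)

private theorem two_of_odd {A : ℤ} (hA : A % 2 = 1) : vv 2 A = 0 ∧ uu 2 A = A := by
  refine vv_uu_of_eq Nat.prime_two (k := 0) (by simp) ?_
  push_cast
  omega

/- PROOF. All congruences mod `8` unless stated otherwise; `p ≡ 1`. For odd `e`: `e² ≡ 1`.
(1) `e` even: `A` odd, `B ≡ A mod 4`, `C ≡ A mod 8`, so `A C ≡ 1`, `B` is a square mod `8` up to.. : `B ≡ 1`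
    (`f² = A B C` odd), `A ≡ 1 mod 4`.
(2) `e` odd, `A` odd: `C ≡ A`, `A C ≡ 1`, `B` even, `B = 4 ^ k B'` with `B' ≡ 1`, `k > 0`; so `B ≡ 0 mod 4` and
    `A = B + 13 p e² ≡ 1 mod 4`.
(3) `e` odd, `A` even: `B` odd. `A = 2 ^ i A'`, `C = 2 ^ k C'`, `i + k` even, `A' B C' ≡ 1`.
    `i = 1`: `C' = A' + 12 p e² ≡ A' + 4`, `A' C' ≡ 5`, `B ≡ 5`, `B = 2 A' - 13 p e² ≡ 2 A' - 5`, so `A' ≡ 1 mod 4`.
    `i = 2`: `C' = A' + 6 p e² ≡ A' + 6`, `A' C' ≡ 1 + 6 A'`, `B ≡ 4 - 5 ≡ 7`, so `6 A' ≡ 6`, `A' ≡ 1 mod 4`.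
    `i = 3`: `C = 8 (A' + 3 p e²)` and `A' + 3 p e²` is even, with even exponent of two, so `≡ 0 mod 4`:
    `A' ≡ -3 ≡ 1 mod 4`.
    `i > 3`: `A = 8 a`, `a = 4 ^ l A'`, `l > 0`, `C = 8 C'`, `C' = a + 3 p e²`, `B ≡ -13 ≡ 3`;
    `l = 1`: `C' ≡ 7`, `A' * 21 ≡ 1`, `A' ≡ 5`; `l > 1`: `C' ≡ 3`, `9 A' ≡ 1`. -/
theorem two_adic {p : ℕ} (hp : p % 8 = 1) {A B C e f : ℤ} (hA : A ≠ 0) (hB : B ≠ 0) (hC : C ≠ 0)
    (hc : IsCoprime A e) (h : f ^ 2 = A * B * C) (hAB : B = A - 13 * p * e ^ 2)
    (hAC : C = A + 24 * p * e ^ 2) : uu 2 A % 4 = 1 := by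
  obtain ⟨hv, hu⟩ := two_prod hA hB hC h
  set E : ℤ := p * e ^ 2 with hE
  have hB' : B = A - 13 * E := by rw [hAB, hE]; ring
  have hC' : C = A + 24 * E := by rw [hAC, hE]; ring
  rcases Int.emod_two_eq_zero_or_one e with he | he
  · -- `e` even
    have hA1 : A % 2 = 1 := by
      obtain ⟨u, v, huv⟩ := hc
      obtain ⟨e', rfl⟩ := Int.dvd_of_emod_eq_zero he
      rcases Int.emod_two_eq_zero_or_one A with h1 | h1
      · exfalso
        obtain ⟨A', rfl⟩ := Int.dvd_of_emod_eq_zero h1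
        have : (2 : ℤ) * (u * A' + v * e') = 1 := by linear_combination huv
        omega
      · exact h1
    have hE4 : E % 4 = 0 := by
      obtain ⟨e', rfl⟩ := Int.dvd_of_emod_eq_zero he
      have : E = 4 * (p * e' ^ 2) := by rw [hE]; ring
      omega
    obtain ⟨hvA, huA⟩ := two_of_odd hA1
    obtain ⟨hvB, huB⟩ := two_of_odd (A := B) (by omega)
    obtain ⟨hvC, huC⟩ := two_of_odd (A := C) (by omega)
    rw [huA, huB, huC] at hu
    rw [huA]
    have h1 : C % 8 = A % 8 := by omega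
    have h2 : B % 4 = A % 4 := by omega
    rw [h1] at hu
    have h3 : A % 8 = 1 ∨ A % 8 = 3 ∨ A % 8 = 5 ∨ A % 8 = 7 := by omega
    have h4 : B % 8 = 1 ∨ B % 8 = 3 ∨ B % 8 = 5 ∨ B % 8 = 7 := by omega
    rcases h3 with h3 | h3 | h3 | h3 <;> rcases h4 with h4 | h4 | h4 | h4 <;>
      rw [h3, h4] at hu <;> omega
  · -- `e` odd
    have hE1 : E % 8 = 1 := by
      have h1 := two_sq he
      rw [hE, Int.mul_emod, h1]
      have h2 : (p : ℤ) % 8 = 1 := by omega
      rw [h2]
      norm_num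
    rcases Int.emod_two_eq_zero_or_one A with hA0 | hA1
    · -- `A` even
      obtain ⟨hvB, huB⟩ := two_of_odd (A := B) (by omega)
      rw [hvB, add_zero] at hv
      rw [huB] at hu
      have hAeq := eq_uu Nat.prime_two hA
      have hAo := two_odd hA
      set i := vv 2 A with hi
      set A' := uu 2 A with hA'
      have hi0 : i ≠ 0 := by
        intro h0
        rw [h0, pow_zero, one_mul] at hAeq
        omega
      have hcases : i = 1 ∨ i = 2 ∨ i = 3 ∨ 4 ≤ i := by omega
      have h3 : A' % 8 = 1 ∨ A' % 8 = 3 ∨ A' % 8 = 5 ∨ A' % 8 = 7 := by omega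
      rcases hcases with h1 | h1 | h1 | h1
      · have hA2 : A = 2 * A' := by rw [hAeq, h1]; norm_num
        obtain ⟨hvC, huC⟩ := vv_uu_of_eq Nat.prime_two (k := 1) (A := C) (A' := A' + 12 * E)
          (by push_cast; rw [hC', hA2]; ring) (by push_cast; omega)
        have h4 : uu 2 C % 8 = (A' % 8 + 4) % 8 := by rw [huC]; omega
        have h5 : B % 8 = (2 * (A' % 8) + 3) % 8 := by omega
        rcases h3 with h3 | h3 | h3 | h3 <;> rw [h3] at h4 h5 <;> rw [h3, h4, h5] at hu <;> omega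
      · have hA2 : A = 4 * A' := by rw [hAeq, h1]; norm_num
        obtain ⟨hvC, huC⟩ := vv_uu_of_eq Nat.prime_two (k := 2) (A := C) (A' := A' + 6 * E)
          (by push_cast; rw [hC', hA2]; ring) (by push_cast; omega)
        have h4 : uu 2 C % 8 = (A' % 8 + 6) % 8 := by rw [huC]; omega
        have h5 : B % 8 = 7 := by omega
        rcases h3 with h3 | h3 | h3 | h3 <;> rw [h3] at h4 <;> rw [h3, h4, h5] at hu <;> omega
      · have hA2 : A = 8 * A' := by rw [hAeq, h1]; norm_num
        have hC2 : C = 8 * (A' + 3 * E) := by rw [hC', hA2]; ring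
        have hD0 : A' + 3 * E ≠ 0 := by
          intro h0
          rw [h0, mul_zero] at hC2
          exact hC hC2
        have hD := eq_uu Nat.prime_two hD0
        have hvC : vv 2 C = 3 + vv 2 (A' + 3 * E) := by
          obtain ⟨h6, -⟩ := vv_uu_of_eq Nat.prime_two (k := 3 + vv 2 (A' + 3 * E)) (A := C)
            (A' := uu 2 (A' + 3 * E)) (by
              rw [hC2, pow_add, mul_assoc, ← hD]; norm_num) (not_dvd_uu Nat.prime_two hD0)
          exact h6
        rw [hvC, h1] at hv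
        have hne : vv 2 (A' + 3 * E) ≠ 0 := by
          intro h0
          rw [h0, pow_zero, one_mul] at hD
          have := two_odd hD0
          omega
        have h4 : (4 : ℤ) ∣ A' + 3 * E := by
          rw [hD]
          apply Dvd.dvd.mul_right
          have : (4 : ℤ) = ((2 : ℕ) : ℤ) ^ 2 := by norm_num
          rw [this]
          exact pow_dvd_pow _ (by omega)
        omega
      · obtain ⟨j, rfl | hj⟩ : ∃ j, j = i ∨ False := ⟨i, Or.inl rfl⟩
        · have hA16 : A = 8 * (2 * (2 ^ (i - 4) * A')) := by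
            rw [hAeq]
            have : i = 4 + (i - 4) := by omega
            conv_lhs => rw [this, pow_add]
            push_cast
            ring
          have hvC : vv 2 C = 3 ∧ uu 2 C = 2 * (2 ^ (i - 4) * A') + 3 * E :=
            vv_uu_of_eq Nat.prime_two (k := 3) (A := C)
              (by push_cast; rw [hC', hA16]; ring) (by push_cast; omega)
          rw [hvC.1] at hv
          have h5 : 5 ≤ i := by omega
          have hA32 : 2 ^ (i - 4) * A' = 2 * (2 ^ (i - 5) * A') := by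
            have : i - 4 = 1 + (i - 5) := by omega
            rw [this, pow_add]
            ring
          rw [hA32] at hvC
          have hB3 : B % 8 = 3 := by omega
          by_cases h6 : i = 5
          · have h7 : uu 2 C % 8 = 7 := by
              rw [hvC.2, h6]
              norm_num
              omega
            rw [hB3, h7] at hu
            rcases h3 with h3 | h3 | h3 | h3 <;> rw [h3] at hu <;> omega
          · have h7 : (2 : ℤ) ^ (i - 5) * A' = 2 * (2 ^ (i - 6) * A') := by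
              have : i - 5 = 1 + (i - 6) := by omega
              rw [this, pow_add]
              ring
            have h8 : uu 2 C % 8 = 3 := by
              rw [hvC.2, h7]
              omega
            rw [hB3, h8] at hu
            rcases h3 with h3 | h3 | h3 | h3 <;> rw [h3] at hu <;> omega
        · exact hj.elim
    · -- `A` odd
      obtain ⟨hvA, huA⟩ := two_of_odd hA1
      obtain ⟨hvC, huC⟩ := two_of_odd (A := C) (by omega)
      rw [huA, huC] at hu
      rw [hvA, hvC] at hv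
      rw [huA]
      have hBeq := eq_uu Nat.prime_two hB
      have hne : vv 2 B ≠ 0 := by
        intro h0
        rw [h0, pow_zero, one_mul] at hBeq
        have := two_odd hB
        omega
      have h4 : (4 : ℤ) ∣ B := by
        rw [hBeq]
        apply Dvd.dvd.mul_right
        have : (4 : ℤ) = ((2 : ℕ) : ℤ) ^ 2 := by norm_num
        rw [this]
        exact pow_dvd_pow _ (by omega)
      omega

end Pool.Agent.ZCQK
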