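import Pool.Agent.ZCQK.Dec
import Pool.Agent.ZCQK.LocTw
import Pool.Agent.ZCQK.Misc
import Pool.Agent.ZCQK.Two

/-!
# The square classes of the rational points of `y² = x (x - 13 p) (x + 24 p)`
-/

set_option autoImplicit false

namespace Pool.Agent.ZCQK

private theorem erase_prod (S : Finset ℕ) (l : ℕ) (g : ℕ → ℤ) :
    ∏ q ∈ S.erase l, g q = ∏ q ∈ S, if q = l then 1 else g q := by
  rw [← Finset.prod_erase (s := S) (a := l) (f := fun q => if q = l then 1 else g q) (by simp)]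
  refine Finset.prod_congr rfl fun q hq => ?_
  rw [if_neg (Finset.ne_of_mem_erase hq)]

private theorem prod_five {p : ℕ} (h2 : p ≠ 2) (h3 : p ≠ 3) (h13 : p ≠ 13) (h37 : p ≠ 37)
    (g : ℕ → ℤ) : ∏ q ∈ ({2, 3, 13, 37, p} : Finset ℕ), g q = g 2 * g 3 * g 13 * g 37 * g p := by
  rw [Finset.prod_insert (by simp; omega), Finset.prod_insert (by simp; omega),
    Finset.prod_insert (by simp; omega), Finset.prod_insert (by simp; omega),
    Finset.prod_singleton]
  ring

private theorem leg_sign (l : ℕ) [Fact l.Prime] {A : ℤ} (hA : A ≠ 0) :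
    legendreSym l A.sign = legendreSym l (-1) ^ (if A < 0 then 1 else 0) := by
  rcases lt_trichotomy A 0 with h | h | h
  · rw [Int.sign_eq_neg_one_of_neg h, if_pos h, pow_one]
  · exact absurd h hA
  · rw [Int.sign_eq_one_of_pos h, if_neg (by omega), pow_zero, legendreSym.at_one]

private theorem sign_eq {A : ℤ} (hA : A ≠ 0) : A.sign = (-1) ^ (if A < 0 then 1 else 0) := by
  rcases lt_trichotomy A 0 with h | h | h
  · rw [Int.sign_eq_neg_one_of_neg h, if_pos h, pow_one]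
  · exact absurd h hA
  · rw [Int.sign_eq_one_of_pos h, if_neg (by omega), pow_zero]

private theorem even_of_pow {n : ℕ} (h : (-1 : ℤ) ^ n = 1) : n % 2 = 0 := by
  rw [neg_one_pow_eq_one_iff_even (by norm_num)] at h
  exact Nat.even_iff.1 h

private theorem pow_of_mod {m n : ℕ} (h : m % 2 = n % 2) : (-1 : ℤ) ^ m = (-1) ^ n := by
  rw [← Nat.div_add_mod m 2, ← Nat.div_add_mod n 2, h, pow_add, pow_mul, pow_add, pow_mul]
  norm_num

private theorem mod_of_pow {m n : ℕ} (h : (-1 : ℤ) ^ m = (-1) ^ n) : m % 2 = n % 2 := by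
  have h1 : (-1 : ℤ) ^ (m + n) = 1 := by
    rw [pow_add, h, ← pow_add, ← two_mul, pow_mul]
    norm_num
  have := even_of_pow h1
  omega

private theorem sq_pow {n : ℕ} (h : n % 2 = 0) (a : ℤ) : IsSquare (a ^ n) :=
  Even.isSquare_pow (Nat.even_iff.2 h) a

private theorem final_A (P : ℤ) {s a2 a3 a13 a37 ap bp : ℕ} {A t : ℤ}
    (h : A = (-1) ^ s * (2 ^ a2 * 3 ^ a3 * 13 ^ a13 * 37 ^ a37 * P ^ ap) * t ^ 2)
    (hs : (s + bp) % 2 = 0) (h2 : (a2 + bp) % 2 = 0) (h3 : (a3 + bp) % 2 = 0)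
    (h13 : (a13 + bp + ap) % 2 = 0) (h37 : a37 % 2 = 0) :
    IsSquare (A * ((-78) ^ bp * (13 * P) ^ ap)) := by
  have h1 : A * ((-78) ^ bp * (13 * P) ^ ap) =
      (-1) ^ (s + bp) * 2 ^ (a2 + bp) * 3 ^ (a3 + bp) * 13 ^ (a13 + bp + ap) * 37 ^ a37 *
        P ^ (2 * ap) * t ^ 2 := by
    rw [h, show (-78 : ℤ) = (-1) * (2 * (3 * 13)) by norm_num]
    simp only [mul_pow]
    ring
  rw [h1]
  exact ((((((sq_pow hs _).mul (sq_pow h2 _)).mul (sq_pow h3 _)).mul
    (sq_pow h13 _)).mul (sq_pow h37 _)).mul (sq_pow (by omega) _)).mul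
    (sq_pow (by norm_num) _)

private theorem final_B (P : ℤ) {s b2 b3 b13 b37 ap bp : ℕ} {B t : ℤ}
    (h : B = (-1) ^ s * (2 ^ b2 * 3 ^ b3 * 13 ^ b13 * 37 ^ b37 * P ^ bp) * t ^ 2)
    (hs : (s + bp) % 2 = 0) (h2 : b2 % 2 = 0) (h3 : b3 % 2 = 0)
    (h13 : (b13 + bp + ap) % 2 = 0) (h37 : (b37 + ap) % 2 = 0) :
    IsSquare (B * ((-13 * P) ^ bp * 481 ^ ap)) := by
  have h1 : B * ((-13 * P) ^ bp * 481 ^ ap) =
      (-1) ^ (s + bp) * 2 ^ b2 * 3 ^ b3 * 13 ^ (b13 + bp + ap) * 37 ^ (b37 + ap) *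
        P ^ (2 * bp) * t ^ 2 := by
    rw [h, show (-13 * P : ℤ) = (-1) * (13 * P) by ring, show (481 : ℤ) = 13 * 37 by norm_num]
    simp only [mul_pow]
    ring
  rw [h1]
  exact ((((((sq_pow hs _).mul (sq_pow h2 _)).mul (sq_pow h3 _)).mul
    (sq_pow h13 _)).mul (sq_pow h37 _)).mul (sq_pow (by omega) _)).mul
    (sq_pow (by norm_num) _)

/-- the exponents of `-1` and of `3` in a number which is `1` modulo `4` -/
private theorem mod_four {A t : ℤ} (hA : A ≠ 0) {P : ℤ} (hP : P % 4 = 1)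
    {s a2 a3 a13 a37 ap : ℕ}
    (h : A = (-1) ^ s * (2 ^ a2 * 3 ^ a3 * 13 ^ a13 * 37 ^ a37 * P ^ ap) * t ^ 2)
    (hu : uu 2 A % 4 = 1) : (s + a3) % 2 = 0 := by
  have ht : t ≠ 0 := by
    rintro rfl
    apply hA
    rw [h]
    ring
  have hto := not_dvd_uu Nat.prime_two ht
  have hteq := eq_uu Nat.prime_two ht
  set r := vv 2 t with hr
  set u := uu 2 t with hud
  clear_value r u
  have hu4 : (u : ZMod 4) ^ 2 = 1 := by
    have h1 : u % 4 = 1 ∨ u % 4 = 3 := by
      have : ¬ (2 : ℤ) ∣ u := by exact_mod_cast hto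
      omega
    have h2 : ((u % 4 : ℤ) : ZMod 4) = (u : ZMod 4) := by
      have := ZMod.intCast_mod u 4
      exact_mod_cast this
    rcases h1 with h1 | h1 <;> rw [h1] at h2 <;> rw [← h2] <;> decide
  have hP4 : (P : ZMod 4) = 1 := by
    have h2 : ((P % 4 : ℤ) : ZMod 4) = (P : ZMod 4) := by
      have := ZMod.intCast_mod P 4
      exact_mod_cast this
    rw [← h2, hP]
    decide
  set A' : ℤ := (-1) ^ s * (3 ^ a3 * 13 ^ a13 * 37 ^ a37 * P ^ ap) * u ^ 2 with hA'
  have hcast : (A' : ZMod 4) = (-1) ^ (s + a3) := by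
    rw [hA']
    push_cast
    rw [hu4, hP4, show (3 : ZMod 4) = -1 by decide, show (13 : ZMod 4) = 1 by decide,
      show (37 : ZMod 4) = 1 by decide]
    simp only [one_pow, mul_one]
    rw [pow_add]
  have hAA : A = 2 ^ (a2 + 2 * r) * A' := by
    rw [h, hA', hteq]
    push_cast
    ring
  have hodd : ¬ ((2 : ℕ) : ℤ) ∣ A' := by
    rintro ⟨c, hc⟩
    have h1 : ((2 * c : ℤ) : ZMod 4) = (-1) ^ (s + a3) := by
      rw [← hcast, hc]
      push_cast
      rfl
    rcases Nat.even_or_odd (s + a3) with h2 | h2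
    · rw [h2.neg_one_pow] at h1
      have h3 : ∀ z : ZMod 4, 2 * z ≠ 1 := by decide
      exact h3 (c : ZMod 4) (by push_cast at h1; exact h1)
    · rw [h2.neg_one_pow] at h1
      have h3 : ∀ z : ZMod 4, 2 * z ≠ -1 := by decide
      exact h3 (c : ZMod 4) (by push_cast at h1; exact h1)
  obtain ⟨-, h5⟩ := vv_uu_of_eq Nat.prime_two (k := a2 + 2 * r) (A := A) (A' := A')
    (by push_cast; exact hAA) hodd
  rw [h5] at hu
  have h6 : (A' : ZMod 4) = 1 := by
    have h2 : ((A' % 4 : ℤ) : ZMod 4) = (A' : ZMod 4) := by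
      have := ZMod.intCast_mod A' 4
      exact_mod_cast this
    rw [← h2, hu]
    decide
  rw [hcast] at h6
  rcases Nat.even_or_odd (s + a3) with h2 | h2
  · exact Nat.even_iff.1 h2
  · rw [h2.neg_one_pow] at h6
    exact absurd h6 (by decide)

/- PROOF. If `x = -24 p` take `t₀ = t₁ = 1`. Otherwise `exists_int` (with `a = 13 p`, `b = -24 p`): `A = m`,
`B = m - 13 p e²`, `C = m + 24 p e²`, all nonzero, `f² = A B C`, `m` and `e` coprime.
`S = {2, 3, 13, 37, p}`, for the other primes `vv` of `A`, `B`, `C` is even (`even_vv`; the differences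
are `13 p e²`, `24 p e²`, `37 p e²`). Write `iq = vv q A`, `jq = vv q B` (parities).
(a) `A` and `B` have the same sign (`A > 0 > B` gives `C > 0` and a negative product; `A < 0` gives `B < 0`).
(b) `two_adic`: `uu 2 A ≡ 1 mod 4`.
(c) `loc_mult` with `q = 3`, `(U, V, W) = (A, C, B)`, `c' = -13 p`: `j3` even, symbol mod `3` of `uu 3 B` is `1`.
    `q = 13`, `(U, V, W) = (A, B, C)`, `c' = 24 p`: `vv 13 C` even, so `i13 ≡ j13`, and symbol mod `13` of
    `uu 13 C` is `1`, so those of `uu 13 A` and `uu 13 B` are equal.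
    `q = 37`, `(U, V, W) = (B, C, A)`, `c' = 13 p`: `i37` even, symbol mod `37` of `uu 37 A` is `1`.
    [mod 3: `c' ≡ -13 * 2 ≡ 1`. mod 13: `c' ≡ 11 * 2 ≡ 9`. mod 37: `c' ≡ 13 * 20 ≡ 1`.]
(d) `loc_tw` with `α = 13`, `β = -24` and `leg_p`: the symbol mod `p` of `uu p A` is `(-1)^ip`, the one of
    `uu p B` is `(-1)^jp` (`-1` and `2` are squares mod `p`; `3, 5, 13, 37` are not).
(e) `leg_uu` for `l = 3, 13, 37, p`. With `s = 1` if `A < 0` (`B < 0`), else `0`, mod `2`:
    mod 3 (`B`; `-1`, `2`, `p` are nonsquares, `13, 37` are squares): `s + j2 + jp = 0`,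
    mod 13 (`A` and `B`; `2, 37, p` nonsquares, `-1, 3` squares): `i2 + ip = j2 + j37 + jp` (`i37 = 0`),
    mod 37 (`A`; `2, 13, p` nonsquares, `-1, 3` squares): `i2 + i13 + ip = 0`,
    mod `p`: `A`: `i3 + i13 = ip` (`i37 = 0`), `B`: `j13 + j37 = jp` (`j3 = 0`),
    mod 4 (`uu 2 A`, by `exists_decomp`; `3` and `-1` are `3 mod 4`, `13, 37, p` are `1 mod 4`): `s + i3 = 0`.
    So `i3 = i2 = s = jp = i13 + ip`, `j2 = 0`, `j37 = ip`, `j13 = i13 = ip + jp`: `t₀ = jp`, `t₁ = ip`.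
(f) `exists_decomp` for `A` and `B`: the two products are squares of integers up to `e²`
    (`isSquare_of_int`). -/
theorem tw1_classes {p : ℕ} (hp : p.Prime) (h : p % 57720 = 353) {x y : ℚ}
    (hxy : y ^ 2 = x * (x - 13 * p) * (x + 24 * p)) (hx : x ≠ 0) (hx' : x ≠ 13 * p) :
    ∃ t₀ t₁ : ℕ, IsSquare (x * ((-78) ^ t₀ * (13 * p) ^ t₁)) ∧
      IsSquare ((x - 13 * p) * ((-13 * p) ^ t₀ * 481 ^ t₁)) := by
  by_cases hx2 : x = -24 * p
  · refine ⟨1, 1, ⟨156 * p, ?_⟩, ⟨481 * p, ?_⟩⟩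
    · rw [hx2]; ring
    · rw [hx2]; ring
  have : Fact p.Prime := ⟨hp⟩
  have : Fact (Nat.Prime 3) := ⟨by norm_num⟩
  have : Fact (Nat.Prime 13) := ⟨by norm_num⟩
  have : Fact (Nat.Prime 37) := ⟨by norm_num⟩
  have hp0 : (p : ℤ) ≠ 0 := by exact_mod_cast hp.ne_zero
  obtain ⟨m, e, f, hcop, he, hxe, hf⟩ := exists_int (a := 13 * p) (b := -24 * p) (x := x) (y := y)
    (by push_cast; rw [hxy]; ring)
  have heq : (e : ℚ) ≠ 0 := by exact_mod_cast he
  obtain ⟨A, hAd⟩ : ∃ A, A = m := ⟨_, rfl⟩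
  obtain ⟨B, hBd⟩ : ∃ B, B = m - 13 * p * e ^ 2 := ⟨_, rfl⟩
  obtain ⟨C, hCd⟩ : ∃ C, C = m + 24 * p * e ^ 2 := ⟨_, rfl⟩
  have hBx : (x - 13 * p) * (e : ℚ) ^ 2 = B := by
    rw [hBd]; push_cast; rw [← hxe]; ring
  have hCx : (x + 24 * p) * (e : ℚ) ^ 2 = C := by
    rw [hCd]; push_cast; rw [← hxe]; ring
  have hA : A ≠ 0 := by
    rw [hAd]
    intro h0
    rw [h0] at hxe
    have : x * (e : ℚ) ^ 2 ≠ 0 := mul_ne_zero hx (pow_ne_zero 2 heq)
    exact this (by rw [hxe]; simp)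
  have hB : B ≠ 0 := by
    intro h0
    rw [h0] at hBx
    have : (x - 13 * p) * (e : ℚ) ^ 2 ≠ 0 := mul_ne_zero (sub_ne_zero.2 hx') (pow_ne_zero 2 heq)
    exact this (by rw [hBx]; simp)
  have hC : C ≠ 0 := by
    intro h0
    rw [h0] at hCx
    have : (x + 24 * p) * (e : ℚ) ^ 2 ≠ 0 := by
      refine mul_ne_zero (fun h1 => hx2 ?_) (pow_ne_zero 2 heq)
      linarith
    exact this (by rw [hCx]; simp)
  have hF : f ^ 2 = A * B * C := by rw [hf, hAd, hBd, hCd]; ring
  have hf0 : f ≠ 0 := by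
    rintro rfl
    have : A * B * C ≠ 0 := mul_ne_zero (mul_ne_zero hA hB) hC
    exact this (by rw [← hF]; norm_num)
  -- coprimality
  have hco : ∀ q : ℕ, q.Prime → (q : ℤ) ∣ e → ¬ (q : ℤ) ∣ A := by
    intro q hq h1 h2
    rw [hAd] at h2
    have h3 := hcop.isUnit_of_dvd' h2 h1
    exact (Nat.prime_iff_prime_int.1 hq).not_isUnit h3
  have hcoB : ∀ q : ℕ, q.Prime → (q : ℤ) ∣ e → ¬ (q : ℤ) ∣ B := by
    intro q hq h1 h2
    refine hco q hq h1 ?_
    have : A = B + 13 * p * e ^ 2 := by rw [hAd, hBd]; ring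
    rw [this]
    exact dvd_add h2 (Dvd.dvd.mul_left (Dvd.dvd.trans h1 (dvd_pow_self e two_ne_zero)) _)
  -- the good primes
  have hgoodA : ∀ q : ℕ, q.Prime → q ∉ ({2, 3, 13, 37, p} : Finset ℕ) → Even (vv q A) := by
    intro q hq hqS
    simp only [Finset.mem_insert, Finset.mem_singleton, not_or] at hqS
    obtain ⟨q2, q3, q13, q37, qp⟩ := hqS
    have hqi := Nat.prime_iff_prime_int.1 hq
    refine even_vv hq hA hB hC hF fun h1 => ⟨fun h2 => ?_, fun h2 => ?_⟩
    · have h3 : (q : ℤ) ∣ 13 * p * e ^ 2 := by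
        have : (13 * p * e ^ 2 : ℤ) = A - B := by rw [hAd, hBd]; ring
        rw [this]; exact dvd_sub h1 h2
      rcases hqi.dvd_mul.1 h3 with h4 | h4
      · rcases hqi.dvd_mul.1 h4 with h5 | h5
        · have h6 : q ∣ 13 := by exact_mod_cast h5
          exact q13 ((Nat.prime_dvd_prime_iff_eq hq (by norm_num)).1 h6)
        · exact qp ((Nat.prime_dvd_prime_iff_eq hq hp).1 (by exact_mod_cast h5))
      · exact hco q hq (hqi.dvd_of_dvd_pow h4) h1
    · have h3 : (q : ℤ) ∣ 24 * p * e ^ 2 := by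
        have : (24 * p * e ^ 2 : ℤ) = C - A := by rw [hAd, hCd]; ring
        rw [this]; exact dvd_sub h2 h1
      rcases hqi.dvd_mul.1 h3 with h4 | h4
      · rcases hqi.dvd_mul.1 h4 with h5 | h5
        · have h6 : q ∣ 2 ^ 3 * 3 := by exact_mod_cast h5
          rcases (hq.dvd_mul).1 h6 with h7 | h7
          · exact q2 ((Nat.prime_dvd_prime_iff_eq hq (by norm_num)).1 (hq.dvd_of_dvd_pow h7))
          · exact q3 ((Nat.prime_dvd_prime_iff_eq hq (by norm_num)).1 h7)
        · exact qp ((Nat.prime_dvd_prime_iff_eq hq hp).1 (by exact_mod_cast h5))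
      · exact hco q hq (hqi.dvd_of_dvd_pow h4) h1
  have hgoodB : ∀ q : ℕ, q.Prime → q ∉ ({2, 3, 13, 37, p} : Finset ℕ) → Even (vv q B) := by
    intro q hq hqS
    simp only [Finset.mem_insert, Finset.mem_singleton, not_or] at hqS
    obtain ⟨q2, q3, q13, q37, qp⟩ := hqS
    have hqi := Nat.prime_iff_prime_int.1 hq
    refine even_vv (A := B) (B := A) (C := C) (f := f) hq hB hA hC (by rw [hF]; ring)
      fun h1 => ⟨fun h2 => ?_, fun h2 => ?_⟩
    · have h3 : (q : ℤ) ∣ 13 * p * e ^ 2 := by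
        have : (13 * p * e ^ 2 : ℤ) = A - B := by rw [hAd, hBd]; ring
        rw [this]; exact dvd_sub h2 h1
      rcases hqi.dvd_mul.1 h3 with h4 | h4
      · rcases hqi.dvd_mul.1 h4 with h5 | h5
        · have h6 : q ∣ 13 := by exact_mod_cast h5
          exact q13 ((Nat.prime_dvd_prime_iff_eq hq (by norm_num)).1 h6)
        · exact qp ((Nat.prime_dvd_prime_iff_eq hq hp).1 (by exact_mod_cast h5))
      · exact hco q hq (hqi.dvd_of_dvd_pow h4) h2
    · have h3 : (q : ℤ) ∣ 37 * p * e ^ 2 := by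
        have : (37 * p * e ^ 2 : ℤ) = C - B := by rw [hBd, hCd]; ring
        rw [this]; exact dvd_sub h2 h1
      rcases hqi.dvd_mul.1 h3 with h4 | h4
      · rcases hqi.dvd_mul.1 h4 with h5 | h5
        · have h6 : q ∣ 37 := by exact_mod_cast h5
          exact q37 ((Nat.prime_dvd_prime_iff_eq hq (by norm_num)).1 h6)
        · exact qp ((Nat.prime_dvd_prime_iff_eq hq hp).1 (by exact_mod_cast h5))
      · exact hcoB q hq (hqi.dvd_of_dvd_pow h4) h1
  -- congruences for p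
  have hp2 : p ≠ 2 := by omega
  have hp3 : p ≠ 3 := by omega
  have hp13 : p ≠ 13 := by omega
  have hp37 : p ≠ 37 := by omega
  obtain ⟨lm1, l2, l3, -, l13, l37⟩ := leg_p h
  -- (a)
  have hpe : (0 : ℤ) < p * e ^ 2 := by
    have : (0 : ℤ) < p := by exact_mod_cast hp.pos
    positivity
  have hsgn : A < 0 ↔ B < 0 := by
    constructor
    · intro h1
      have : B = A - 13 * (p * e ^ 2) := by rw [hAd, hBd]; ring
      linarith
    · intro h1
      by_contra hcon
      have hA1 : 0 < A := lt_of_le_of_ne (not_lt.1 hcon) (Ne.symm hA)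
      have hC1 : 0 < C := by
        have : C = A + 24 * (p * e ^ 2) := by rw [hAd, hCd]; ring
        linarith
      have h2 : A * B < 0 := mul_neg_of_pos_of_neg hA1 h1
      have h3 : A * B * C < 0 := mul_neg_of_neg_of_pos h2 hC1
      have h4 : 0 ≤ f ^ 2 := sq_nonneg f
      omega
  -- (b)
  have hu2 : uu 2 A % 4 = 1 := two_adic (p := p) (by omega) hA hB hC (by rw [hAd]; exact hcop) hF
    (by rw [hAd, hBd]) (by rw [hAd, hCd])
  -- (c)
  obtain ⟨j3, s3⟩ := loc_mult (q := 3) (U := A) (V := C) (W := B) (e := e) (f := f)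
    (c := -24 * p) (c' := -13 * p) hA hC hB (by rw [hF]; ring) (by rw [hAd, hCd]; ring)
    (by rw [hAd, hBd]; ring) (Dvd.dvd.mul_right (by norm_num) _) (by
      rw [legendreSym.mod, show (-13 * (p : ℤ)) % (3 : ℕ) = 1 by push_cast; omega]
      norm_num) (hco 3 (by norm_num))
  obtain ⟨k13, s13⟩ := loc_mult (q := 13) (U := A) (V := B) (W := C) (e := e) (f := f)
    (c := 13 * p) (c' := 24 * p) hA hB hC hF (by rw [hAd, hBd]; ring)
    (by rw [hAd, hCd]; ring) (Dvd.dvd.mul_right (by norm_num) _) (by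
      rw [legendreSym.mod, show (24 * (p : ℤ)) % (13 : ℕ) = 9 by push_cast; omega]
      norm_num) (hco 13 (by norm_num))
  obtain ⟨i37, s37⟩ := loc_mult (q := 37) (U := B) (V := C) (W := A) (e := e) (f := f)
    (c := -37 * p) (c' := 13 * p) hB hC hA (by rw [hF]; ring) (by rw [hBd, hCd]; ring)
    (by rw [hAd, hBd]; ring) (Dvd.dvd.mul_right (by norm_num) _) (by
      rw [legendreSym.mod, show (13 * (p : ℤ)) % (37 : ℕ) = 1 by push_cast; omega]
      norm_num) (hcoB 37 (by norm_num))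
  have h13par : vv 13 A % 2 = vv 13 B % 2 := by
    have h1 : vv 13 (f * f) = vv 13 (A * B * C) := by rw [← hF]; ring_nf
    rw [vv_mul hf0 hf0, vv_mul (mul_ne_zero hA hB) hC, vv_mul hA hB] at h1
    have h2 := Nat.even_iff.1 k13
    omega
  have h13leg : legendreSym 13 (uu 13 A) = legendreSym 13 (uu 13 B) := by
    have h1 : uu 13 (f * f) = uu 13 (A * B * C) := by rw [← hF]; ring_nf
    rw [uu_mul hf0 hf0, uu_mul (mul_ne_zero hA hB) hC, uu_mul hA hB] at h1
    have h2 := congrArg (legendreSym 13) h1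
    rw [legendreSym.mul, legendreSym.mul, legendreSym.mul, s13, mul_one] at h2
    have hz : ∀ D : ℤ, D ≠ 0 → legendreSym 13 (uu 13 D) = 1 ∨ legendreSym 13 (uu 13 D) = -1 := by
      intro D hD
      refine legendreSym.eq_one_or_neg_one 13 fun h3 => ?_
      exact not_dvd_uu (by norm_num) hD ((ZMod.intCast_zmod_eq_zero_iff_dvd _ _).1 h3)
    rcases hz f hf0 with h3 | h3 <;> rcases hz A hA with h4 | h4 <;>
      rcases hz B hB with h5 | h5 <;> rw [h3, h4, h5] at h2 <;> rw [h4, h5] <;>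
      first | rfl | (exfalso; revert h2; norm_num)
  -- (d)
  have hpd : ∀ n : ℕ, 0 < n → n < p → ¬ (p : ℤ) ∣ n := by
    intro n h1 h2 h3
    have h4 : p ∣ n := by exact_mod_cast h3
    exact absurd (Nat.le_of_dvd h1 h4) (by omega)
  have hpge : 353 ≤ p := by omega
  have e24 : legendreSym p (-24) = -1 := by
    rw [show (-24 : ℤ) = (-1) * (2 * (2 * (2 * 3))) by norm_num, legendreSym.mul,
      legendreSym.mul, legendreSym.mul, legendreSym.mul, lm1, l2, l3]
    norm_num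
  have em13 : legendreSym p (-13) = -1 := by
    rw [show (-13 : ℤ) = (-1) * 13 by norm_num, legendreSym.mul, lm1, l13]
    norm_num
  have em37 : legendreSym p (-37) = -1 := by
    rw [show (-37 : ℤ) = (-1) * 37 by norm_num, legendreSym.mul, lm1, l37]
    norm_num
  have e1 : legendreSym p (13 * (-24)) = 1 := by
    rw [legendreSym.mul, l13, e24]
    norm_num
  have e2 : legendreSym p (13 * (13 - (-24))) = 1 := by
    rw [show (13 - (-24) : ℤ) = 37 by norm_num, legendreSym.mul, l13, l37]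
    norm_num
  have hc : legendreSym p (uu p A) = (-1) ^ vv p A ∧ legendreSym p (uu p B) = (-1) ^ vv p B := by
    rcases loc_tw (p := p) (A := A) (B := B) (C := C) (e := e) (f := f) (α := 13) (β := -24)
      hA hB hC hF (by rw [hAd, hBd]; ring) (by rw [hAd, hCd]; ring)
      (hpd 13 (by norm_num) (by omega)) (by
        intro h1
        exact hpd 24 (by norm_num) (by omega) (by
          have h3 := dvd_neg.2 h1
          norm_num at h3
          exact_mod_cast h3)) (by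
        intro h1
        norm_num at h1
        exact hpd 37 (by norm_num) (by omega) (by exact_mod_cast h1)) (hco p hp) with
      ⟨h1, h2, h3, h4⟩ | ⟨h1, h2, h3, h4⟩ | ⟨h1, h2, h3, h4⟩ | ⟨h1, h2, h3, h4⟩
    · rw [Nat.even_iff] at h1 h2
      rw [h3, h4]
      refine ⟨?_, ?_⟩
      · rw [pow_of_mod (n := 0) (by omega)]; norm_num
      · rw [pow_of_mod (n := 0) (by omega)]; norm_num
    · rw [Nat.even_iff] at h1 h2
      rw [h3, h4, e1, em13]
      refine ⟨?_, ?_⟩
      · rw [pow_of_mod (n := 0) (by omega)]; norm_num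
      · rw [pow_of_mod (n := 1) (by omega)]; norm_num
    · rw [Nat.even_iff] at h1 h2
      rw [h3, h4, l13, e2]
      refine ⟨?_, ?_⟩
      · rw [pow_of_mod (n := 1) (by omega)]; norm_num
      · rw [pow_of_mod (n := 0) (by omega)]; norm_num
    · rw [Nat.even_iff] at h1 h2
      rw [h3, h4, e24, show (-24 - 13 : ℤ) = -37 by norm_num, em37]
      refine ⟨?_, ?_⟩
      · rw [pow_of_mod (n := 1) (by omega)]; norm_num
      · rw [pow_of_mod (n := 1) (by omega)]; norm_num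
  -- (e)
  have hS : ∀ q ∈ ({2, 3, 13, 37, p} : Finset ℕ), q.Prime := by
    intro q hq
    simp only [Finset.mem_insert, Finset.mem_singleton] at hq
    rcases hq with rfl | rfl | rfl | rfl | rfl
    · norm_num
    · norm_num
    · norm_num
    · norm_num
    · exact hp
  have d3 := leg_uu (l := 3) hS hB hgoodB
  have d13A := leg_uu (l := 13) hS hA hgoodA
  have d13B := leg_uu (l := 13) hS hB hgoodB
  have d37 := leg_uu (l := 37) hS hA hgoodA
  have dpA := leg_uu (l := p) hS hA hgoodA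
  have dpB := leg_uu (l := p) hS hB hgoodB
  rw [erase_prod, prod_five hp2 hp3 hp13 hp37, leg_sign _ hB] at d3 d13B dpB
  rw [erase_prod, prod_five hp2 hp3 hp13 hp37, leg_sign _ hA] at d13A d37 dpA
  have hss : (if B < 0 then 1 else 0 : ℕ) = if A < 0 then 1 else 0 := by
    by_cases h1 : A < 0
    · rw [if_pos h1, if_pos (hsgn.1 h1)]
    · rw [if_neg h1, if_neg (fun h2 => h1 (hsgn.2 h2))]
  rw [hss] at d3 d13B dpB
  set s : ℕ := if A < 0 then 1 else 0 with hs
  have g3p : legendreSym 3 (p : ℤ) = -1 := by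
    rw [legendreSym.mod, show (p : ℤ) % (3 : ℕ) = 2 by push_cast; omega]
    norm_num
  have g13p : legendreSym 13 (p : ℤ) = -1 := by
    rw [legendreSym.mod, show (p : ℤ) % (13 : ℕ) = 2 by push_cast; omega]
    norm_num
  have g37p : legendreSym 37 (p : ℤ) = -1 := by
    rw [legendreSym.mod, show (p : ℤ) % (37 : ℕ) = 20 by push_cast; omega]
    norm_num
  have r3 : (-1 : ℤ) ^ (s + vv 2 B + vv p B) = 1 := by
    have h1 : legendreSym 3 (uu 3 B) = (-1) ^ (s + vv 2 B + vv p B) := by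
      rw [d3, g3p, if_neg (by norm_num), if_pos rfl, if_neg (by norm_num),
        if_neg (by norm_num), if_neg hp3, show legendreSym 3 (-1) = -1 by norm_num,
        show legendreSym 3 ((2 : ℕ) : ℤ) = -1 by norm_num,
        show legendreSym 3 ((13 : ℕ) : ℤ) = 1 by norm_num,
        show legendreSym 3 ((37 : ℕ) : ℤ) = 1 by norm_num]
      ring
    rw [← h1, s3]
  have r37 : (-1 : ℤ) ^ (vv 2 A + vv 13 A + vv p A) = 1 := by
    have h1 : legendreSym 37 (uu 37 A) = (-1) ^ (vv 2 A + vv 13 A + vv p A) := by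
      rw [d37, g37p, if_neg (by norm_num), if_neg (by norm_num), if_neg (by norm_num),
        if_pos rfl, if_neg hp37, show legendreSym 37 (-1) = 1 by norm_num,
        show legendreSym 37 ((2 : ℕ) : ℤ) = -1 by norm_num,
        show legendreSym 37 ((3 : ℕ) : ℤ) = 1 by norm_num,
        show legendreSym 37 ((13 : ℕ) : ℤ) = -1 by norm_num]
      ring
    rw [← h1, s37]
  have r13 : (-1 : ℤ) ^ (vv 2 A + vv 37 A + vv p A) = (-1) ^ (vv 2 B + vv 37 B + vv p B) := by
    have h1 : legendreSym 13 (uu 13 A) = (-1) ^ (vv 2 A + vv 37 A + vv p A) := by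
      rw [d13A, g13p, if_neg (by norm_num), if_neg (by norm_num), if_pos rfl,
        if_neg (by norm_num), if_neg hp13, show legendreSym 13 (-1) = 1 by norm_num,
        show legendreSym 13 ((2 : ℕ) : ℤ) = -1 by norm_num,
        show legendreSym 13 ((3 : ℕ) : ℤ) = 1 by norm_num,
        show legendreSym 13 ((37 : ℕ) : ℤ) = -1 by norm_num]
      ring
    have h2 : legendreSym 13 (uu 13 B) = (-1) ^ (vv 2 B + vv 37 B + vv p B) := by
      rw [d13B, g13p, if_neg (by norm_num), if_neg (by norm_num), if_pos rfl,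
        if_neg (by norm_num), if_neg hp13, show legendreSym 13 (-1) = 1 by norm_num,
        show legendreSym 13 ((2 : ℕ) : ℤ) = -1 by norm_num,
        show legendreSym 13 ((3 : ℕ) : ℤ) = 1 by norm_num,
        show legendreSym 13 ((37 : ℕ) : ℤ) = -1 by norm_num]
      ring
    rw [← h1, ← h2, h13leg]
  have rpA : (-1 : ℤ) ^ vv p A = (-1) ^ (vv 3 A + vv 13 A + vv 37 A) := by
    rw [← hc.1, dpA, if_neg (Ne.symm hp2), if_neg (Ne.symm hp3), if_neg (Ne.symm hp13),
      if_neg (Ne.symm hp37), if_pos rfl, lm1, show legendreSym p ((2 : ℕ) : ℤ) = 1 from l2,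
      show legendreSym p ((3 : ℕ) : ℤ) = -1 from l3,
      show legendreSym p ((13 : ℕ) : ℤ) = -1 from l13,
      show legendreSym p ((37 : ℕ) : ℤ) = -1 from l37]
    ring
  have rpB : (-1 : ℤ) ^ vv p B = (-1) ^ (vv 3 B + vv 13 B + vv 37 B) := by
    rw [← hc.2, dpB, if_neg (Ne.symm hp2), if_neg (Ne.symm hp3), if_neg (Ne.symm hp13),
      if_neg (Ne.symm hp37), if_pos rfl, lm1, show legendreSym p ((2 : ℕ) : ℤ) = 1 from l2,
      show legendreSym p ((3 : ℕ) : ℤ) = -1 from l3,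
      show legendreSym p ((13 : ℕ) : ℤ) = -1 from l13,
      show legendreSym p ((37 : ℕ) : ℤ) = -1 from l37]
    ring
  have q3 := even_of_pow r3
  have q37 := even_of_pow r37
  have q13 := mod_of_pow r13
  have qpA := mod_of_pow rpA
  have qpB := mod_of_pow rpB
  rw [Nat.even_iff] at j3 i37
  -- (f)
  obtain ⟨tA, htA⟩ := exists_decomp hS hA hgoodA
  obtain ⟨tB, htB⟩ := exists_decomp hS hB hgoodB
  rw [prod_five hp2 hp3 hp13 hp37] at htA htB
  rw [sign_eq hA, ← hs] at htA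
  rw [sign_eq hB, hss] at htB
  have q4 : (s + vv 3 A) % 2 = 0 := mod_four hA (P := p) (by omega) htA hu2
  refine ⟨vv p B, vv p A, ?_, ?_⟩
  · refine isSquare_of_int (N := A * ((-78) ^ vv p B * (13 * p) ^ vv p A)) ?_ heq ?_
    · exact final_A (p : ℤ) htA (by omega) (by omega) (by omega) (by omega) i37
    · push_cast
      rw [hAd, ← hxe]
      ring
  · refine isSquare_of_int (N := B * ((-13 * p) ^ vv p B * 481 ^ vv p A)) ?_ heq ?_
    · exact final_B (p : ℤ) htB (by omega) (by omega) j3 (by omega) (by omega)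
    · push_cast
      rw [← hBx]
      ring

end Pool.Agent.ZCQK
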