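import Pool.Agent.ZCQ.E0Pts
import Pool.Agent.ZCQK.Tw0
import Pool.Agent.ZCQK.Tw1
import Pool.Agent.ZCQK.Gal2
import Pool.Agent.ZCQK.Fld

/-!
# The points of the two curves over the quadratic fields
-/

set_option autoImplicit false

noncomputable section

namespace Pool.Agent.ZCQK

open WeierstrassCurve Pool.Agent.ZC Pool.Agent.ZCQ
open scoped Classical IntermediateField

private theorem cl_eq_of_pow {x u v : ℚ} (hx : x ≠ 0) (hu : u ≠ 0) (hv : v ≠ 0) {i j : ℕ}
    (h : IsSquare (x * (u ^ i * v ^ j))) : cl x = i • cl u + j • cl v := by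
  rw [(cl_eq_cl hx (mul_ne_zero (pow_ne_zero i hu) (pow_ne_zero j hv))).2 h,
    cl_mul (pow_ne_zero i hu) (pow_ne_zero j hv), cl_pow hu, cl_pow hv]

/-- If the classes of the points are those of the points of order two then all points are torsion
points. -/
private theorem tors_aux {a b u₀ u₁ v₀ v₁ : ℚ} (ha : a ≠ 0) (hb : b ≠ 0) (hab : a ≠ b)
    (hu₀ : u₀ ≠ 0) (hu₁ : u₁ ≠ 0) (hv₀ : v₀ ≠ 0) (hv₁ : v₁ ≠ 0)
    (eu₀ : IsSquare (a * b * u₀)) (ev₀ : IsSquare (-a * v₀)) (eu₁ : IsSquare (a * u₁))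
    (ev₁ : IsSquare (a * (a - b) * v₁))
    (hcl : ∀ x y : ℚ, y ^ 2 = x * (x - a) * (x - b) → x ≠ 0 → x ≠ a →
      ∃ t₀ t₁ : ℕ, IsSquare (x * (u₀ ^ t₀ * u₁ ^ t₁)) ∧ IsSquare ((x - a) * (v₀ ^ t₀ * v₁ ^ t₁)))
    (R : (cc a b).toAffine.Point) : ∃ k : ℕ, 0 < k ∧ k • R = 0 := by
  have hr : Rts (cc a b) 0 a b := cc_rts ha hb hab
  have hab' : a - b ≠ 0 := sub_ne_zero.2 hab
  have hT : dHom2 hr hr.T = (cl u₀, cl v₀) := by
    rw [dHom2_apply]
    simp only [Rts.T, dl, if_true, if_neg ha.symm]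
    rw [Prod.mk.injEq]
    refine ⟨?_, ?_⟩
    · have h1 : (0 - a) * (0 - b) = a * b := by ring
      rw [h1]
      exact (cl_eq_cl (mul_ne_zero ha hb) hu₀).2 eu₀
    · have h1 : 0 - a = -a := by ring
      rw [h1]
      exact (cl_eq_cl (neg_ne_zero.2 ha) hv₀).2 ev₀
  have hT' : dHom2 hr hr.swap12.T = (cl u₁, cl v₁) := by
    rw [dHom2_apply]
    simp only [Rts.T, dl, if_true, if_neg ha]
    rw [Prod.mk.injEq]
    refine ⟨?_, ?_⟩
    · have h1 : a - 0 = a := by ring
      rw [h1]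
      exact (cl_eq_cl ha hu₁).2 eu₁
    · have h1 : (a - 0) * (a - b) = a * (a - b) := by ring
      rw [h1]
      exact (cl_eq_cl (mul_ne_zero ha hab') hv₁).2 ev₁
  have hspan : ∀ P : (cc a b).toAffine.Point, ∃ (n : Fin 0 → ℕ) (t₀ t₁ : ℕ),
      dHom2 hr P = ∑ i, n i • dHom2 hr ((![] : Fin 0 → (cc a b).toAffine.Point) i) +
        t₀ • dHom2 hr hr.T + t₁ • dHom2 hr hr.swap12.T := by
    intro P
    rcases P with _ | ⟨x, y, hns⟩
    · refine ⟨![], 0, 0, ?_⟩
      simp only [zero_nsmul, add_zero, Finset.univ_eq_empty, Finset.sum_empty]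
      rfl
    · have heq := (hr.nonsingular_iff x y).1 hns
      by_cases hx : x = 0
      · subst hx
        have hy : y = 0 := by
          have : y ^ 2 = 0 := by rw [heq]; ring
          exact pow_eq_zero_iff (two_ne_zero) |>.1 this
        subst hy
        refine ⟨![], 1, 0, ?_⟩
        simp only [zero_nsmul, add_zero, Finset.univ_eq_empty, Finset.sum_empty, zero_add,
          one_nsmul]
        rfl
      · by_cases hx' : x = a
        · subst hx'
          have hy : y = 0 := by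
            have : y ^ 2 = 0 := by rw [heq]; ring
            exact pow_eq_zero_iff (two_ne_zero) |>.1 this
          subst hy
          refine ⟨![], 0, 1, ?_⟩
          simp only [zero_nsmul, add_zero, Finset.univ_eq_empty, Finset.sum_empty, zero_add,
            one_nsmul]
          rfl
        · obtain ⟨t₀, t₁, h1, h2⟩ := hcl x y (by rw [heq]; ring) hx hx'
          refine ⟨![], t₀, t₁, ?_⟩
          rw [Finset.univ_eq_empty, Finset.sum_empty, zero_add, hT, hT']
          have hd1 : dl 0 a b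
              (Affine.Point.some x y hns : (cc a b).toAffine.Point) = cl x := by
            simp only [dl]
            rw [if_neg hx, sub_zero]
          have hd2 : dl a 0 b
              (Affine.Point.some x y hns : (cc a b).toAffine.Point) = cl (x - a) := by
            simp only [dl]
            rw [if_neg hx']
          rw [dHom2_apply, hd1, hd2, cl_eq_of_pow hx hu₀ hu₁ h1,
            cl_eq_of_pow (sub_ne_zero.2 hx') hv₀ hv₁ h2]
          rfl
  obtain ⟨M, hM, hMem⟩ := exists_mul_mem_of_classes hr (fg hr) ![] hspan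
  refine ⟨M, hM, ?_⟩
  have h1 := hMem R
  rw [Matrix.range_empty, AddSubgroup.closure_empty, AddSubgroup.mem_bot] at h1
  exact h1

/- PROOF. `exists_mul_mem_of_classes` (ZCQ/E0Pts.lean) with `r = 0` (`pt = ![]`), `cc_rts`, `fg`
(ZCQ/Mordell.lean) and `tw0_classes`: the classes `dHom2` of all points are combinations of those of
`T = (0, 0)`: `(cl (37 p * 45 p), cl (-37 p))` and of `T' = (37 p, 0)`: `(cl (37 p), cl (37 p * (-8 p)))`; the
points with `x = 0` or `x = 37 p` are `T` and `T'`. The closure of the empty set is `0`. -/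
theorem tors0 {p : ℕ} (hp : p.Prime) (h : p % 57720 = 353)
    (R : (cc (37 * p) (45 * p)).toAffine.Point) : ∃ k : ℕ, 0 < k ∧ k • R = 0 := by
  have hp0 : (p : ℚ) ≠ 0 := by exact_mod_cast hp.ne_zero
  refine tors_aux (u₀ := 1665) (u₁ := 37 * p) (v₀ := -37 * p) (v₁ := -74)
    (mul_ne_zero (by norm_num) hp0) (mul_ne_zero (by norm_num) hp0) ?_ (by norm_num)
    (mul_ne_zero (by norm_num) hp0) (mul_ne_zero (by norm_num) hp0) (by norm_num)
    ⟨1665 * p, by ring⟩ ⟨37 * p, by ring⟩ ⟨37 * p, by ring⟩ ⟨148 * p, by ring⟩ ?_ R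
  · intro h1
    apply hp0
    linarith
  · intro x y hxy hx hx'
    exact tw0_classes hp h hxy hx hx'

/- PROOF. The same with `tw1_classes`: `T`: `(cl (13 p * (-24 p)), cl (-13 p))`, `T'`: `(cl (13 p), cl (13 p * 37 p))`
(`-312 = 4 * (-78)`). -/
theorem tors1 {p : ℕ} (hp : p.Prime) (h : p % 57720 = 353)
    (R : (cc (13 * p) (-24 * p)).toAffine.Point) : ∃ k : ℕ, 0 < k ∧ k • R = 0 := by
  have hp0 : (p : ℚ) ≠ 0 := by exact_mod_cast hp.ne_zero
  refine tors_aux (u₀ := -78) (u₁ := 13 * p) (v₀ := -13 * p) (v₁ := 481)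
    (mul_ne_zero (by norm_num) hp0) (mul_ne_zero (by norm_num) hp0) ?_ (by norm_num)
    (mul_ne_zero (by norm_num) hp0) (mul_ne_zero (by norm_num) hp0) (by norm_num)
    ⟨156 * p, by ring⟩ ⟨13 * p, by ring⟩ ⟨13 * p, by ring⟩ ⟨481 * p, by ring⟩ ?_ R
  · intro h1
    apply hp0
    linarith
  · intro x y hxy hx hx'
    exact tw1_classes hp h (by rw [hxy]; ring) hx hx'

/- PROOF. `mul_eq_up` with `a = 13 * 370`, `b = 13 * 450`, `d = 130 p`, `c = 1 / 130`; `c² d a = 37 p`. -/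
theorem e0_up {p : ℕ} (hp : p.Prime) (hmod : p % 57720 = 353) {s : AlgebraicClosure ℚ}
    (hs : s ^ 2 = 130 * p) {x y : AlgebraicClosure ℚ} (hx : x ∈ ℚ⟮s⟯) (hy : y ∈ ℚ⟮s⟯)
    (h : ((cc (13 * 370) (13 * 450))⁄(AlgebraicClosure ℚ)).toAffine.Nonsingular x y) :
    ∃ (k : ℕ) (g : (cc (13 * 370) (13 * 450)).toAffine.Point), 0 < k ∧
      k • (Affine.Point.some x y h :
        ((cc (13 * 370) (13 * 450))⁄(AlgebraicClosure ℚ)).toAffine.Point) = up _ g := by
  have hs' : s ^ 2 = algebraMap ℚ (AlgebraicClosure ℚ) (130 * p) := by rw [hs]; simp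
  refine mul_eq_up (a := 13 * 370) (b := 13 * 450) (c := 1 / 130) (d := 130 * p) (by norm_num)
    (by norm_num) (by norm_num) (by norm_num) (not_isSquare hp hmod) hs' ?_ hx hy h
  have h1 : (1 / 130 : ℚ) ^ 2 * (130 * p) * (13 * 370) = 37 * p := by ring
  have h2 : (1 / 130 : ℚ) ^ 2 * (130 * p) * (13 * 450) = 45 * p := by ring
  rw [h1, h2]
  exact tors0 hp hmod

/- PROOF. `mul_eq_up` with `a = 1690`, `b = -3120`, `d = 130 p`, `c = 1 / 130`; `c² d a = 13 p`. -/
theorem e1_up {p : ℕ} (hp : p.Prime) (hmod : p % 57720 = 353) {s : AlgebraicClosure ℚ}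
    (hs : s ^ 2 = 130 * p) {x y : AlgebraicClosure ℚ} (hx : x ∈ ℚ⟮s⟯) (hy : y ∈ ℚ⟮s⟯)
    (h : ((cc 1690 (-3120))⁄(AlgebraicClosure ℚ)).toAffine.Nonsingular x y) :
    ∃ (k : ℕ) (g : (cc 1690 (-3120)).toAffine.Point), 0 < k ∧
      k • (Affine.Point.some x y h : ((cc 1690 (-3120))⁄(AlgebraicClosure ℚ)).toAffine.Point) =
        up _ g := by
  have hs' : s ^ 2 = algebraMap ℚ (AlgebraicClosure ℚ) (130 * p) := by rw [hs]; simp
  refine mul_eq_up (a := 1690) (b := -3120) (c := 1 / 130) (d := 130 * p) (by norm_num)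
    (by norm_num) (by norm_num) (by norm_num) (not_isSquare hp hmod) hs' ?_ hx hy h
  have h1 : (1 / 130 : ℚ) ^ 2 * (130 * p) * 1690 = 13 * p := by ring
  have h2 : (1 / 130 : ℚ) ^ 2 * (130 * p) * (-3120) = -24 * p := by ring
  rw [h1, h2]
  exact tors1 hp hmod

end Pool.Agent.ZCQK
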