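import Pool.Agent.ZCQK.Sat
import Pool.Agent.ZCQK.Tors

/-!
# Orthogonal families of elliptic curves of rank four over infinitely many quadratic fields
-/

set_option autoImplicit false

noncomputable section

namespace Pool.Agent.ZCQK

open WeierstrassCurve Pool.Agent.ZC Pool.Agent.ZCQ
open scoped Classical

/-- an elliptic curve with the data used in the final theorem -/
structure DatK (r : ℕ) (W : WeierstrassCurve ℚ) (P : Fin r → W.toAffine.Point) : Prop where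
  ell : W.IsElliptic
  ind : LinearIndependent ℤ P
  set : ∀ i, up W (P i) ∈ SetE (W⁄(AlgebraicClosure ℚ)) (algebraMap ℚ (AlgebraicClosure ℚ) (8 / 13))

theorem quad_datK {α β r₁ r₂ r₃ r₄ : ℚ} (h : Quad α β r₁ r₂ r₃ r₄) :
    DatK 4 (cc (13 * α) (13 * β)) h.pt :=
  ⟨h.rts.isElliptic, h.linInd, h.mem_SetE⟩

theorem e1_datK : DatK 3 (cc 1690 (-3120)) e1_pt :=
  ⟨e1_rts.isElliptic, e1_linInd, e1_mem_SetE⟩

/-- the members of the family with their data -/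
structure MemK : Type where
  r : ℕ
  W : WeierstrassCurve ℚ
  P : Fin r → W.toAffine.Point
  dat : DatK r W P

/-- the first curve -/
def m0 : MemK := ⟨4, _, _, quad_datK e0_quad⟩

/-- the second curve -/
def m1 : MemK := ⟨3, _, _, e1_datK⟩

theorem exists_memK (F : Finset ℚ) : ∃ M : MemK, 4 ≤ M.r ∧ jj M.W ∉ F := by
  obtain ⟨α, β, r₁, r₂, r₃, r₄, h, hj⟩ := exists_member F
  exact ⟨⟨4, _, _, quad_datK h⟩, le_rfl, hj⟩

theorem exists_seqK : ∃ f : ℕ → MemK, (∀ n n', jj (f n).W = jj (f n').W → n = n') ∧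
    (∀ n, n ≠ 1 → 4 ≤ (f n).r) ∧ f 0 = m0 ∧ f 1 = m1 := by
  obtain ⟨g, hg, hg'⟩ := exists_seq_of_forall_finset_exists
    (fun M : MemK => 4 ≤ M.r ∧ jj M.W ≠ jj m0.W ∧ jj M.W ≠ jj m1.W)
    (fun M M' : MemK => jj M.W ≠ jj M'.W) (by
    intro s _
    obtain ⟨M, hM, hM'⟩ := exists_memK (insert (jj m0.W) (insert (jj m1.W)
      (s.image fun M => jj M.W)))
    rw [Finset.mem_insert, Finset.mem_insert, not_or, not_or] at hM'
    refine ⟨M, ⟨hM, hM'.1, hM'.2.1⟩, fun M' hM1 h => hM'.2.2 ?_⟩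
    exact Finset.mem_image.2 ⟨M', hM1, h⟩)
  set f : ℕ → MemK := fun n => match n with
    | 0 => m0
    | 1 => m1
    | n + 2 => g n with hf
  refine ⟨f, ?_, ?_, rfl, rfl⟩
  · have key : ∀ n n', n < n' → jj (f n).W ≠ jj (f n').W := by
      intro n n' hn
      match n, n', hn with
      | 0, 0, hn => omega
      | 0, 1, _ => exact e01_jj
      | 0, n' + 2, _ => exact (hg n').2.1.symm
      | 1, 0, hn => omega
      | 1, 1, hn => omega
      | 1, n' + 2, _ => exact (hg n').2.2.symm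
      | n + 2, 0, hn => omega
      | n + 2, 1, hn => omega
      | n + 2, n' + 2, hn => exact hg' n n' (by omega)
    intro n n' h
    rcases lt_trichotomy n n' with h1 | h1 | h1
    · exact absurd h (key n n' h1)
    · exact h1
    · exact absurd h.symm (key n' n h1)
  · intro n hn
    match n, hn with
    | 0, _ => exact le_rfl
    | 1, hn => exact absurd rfl hn
    | n + 2, _ => exact (hg n).1

theorem mem_sq_of_up {W : WeierstrassCurve ℚ} {r : ℕ} {P : Fin r → W.toAffine.Point} {m : ℕ}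
    (hm : 0 < m) (h : ∀ g, m • g ∈ AddSubgroup.closure (Set.range P))
    {R : (W⁄(AlgebraicClosure ℚ)).toAffine.Point}
    (hR : ∃ (k : ℕ) (g : W.toAffine.Point), 0 < k ∧ k • R = up W g) : R ∈ sq W P := by
  obtain ⟨k, g, hk, h1⟩ := hR
  apply satur_sat hk
  rw [h1]
  exact up_mem_sq hm (h g)

theorem main_aux : ∃ (E : ℕ → WeierstrassCurve ℚ)
    (G : (n : ℕ) → AddSubgroup ((E n)⁄(AlgebraicClosure ℚ)).toAffine.Point),
    (∀ n, (E n).IsElliptic) ∧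
    (∀ n n', (E n).c₄ ^ 3 / (E n).Δ = (E n').c₄ ^ 3 / (E n').Δ → n = n') ∧
    (∀ n (g : ((E n)⁄(AlgebraicClosure ℚ)).toAffine.Point) (k : ℕ),
      0 < k → k • g ∈ G n → g ∈ G n) ∧
    (∀ n, n ≠ 1 → ∃ P : Fin 4 → (E n).toAffine.Point,
      LinearIndependent ℤ P ∧ ∀ i, up (E n) (P i) ∈ G n) ∧
    (E 0 = ⟨0, -10660, 0, 28138500, 0⟩ ∧
      ∀ P : Fin 5 → ((E 0)⁄(AlgebraicClosure ℚ)).toAffine.Point, (∀ i, P i ∈ G 0) →
        ¬ LinearIndependent ℤ P) ∧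
    (E 1 = ⟨0, 1430, 0, -5272800, 0⟩ ∧
      (∃ P : Fin 3 → (E 1).toAffine.Point, LinearIndependent ℤ P ∧ ∀ i, up (E 1) (P i) ∈ G 1) ∧
      ∀ P : Fin 4 → ((E 1)⁄(AlgebraicClosure ℚ)).toAffine.Point, (∀ i, P i ∈ G 1) →
        ¬ LinearIndependent ℤ P) ∧
    {K : IntermediateField ℚ (AlgebraicClosure ℚ) | QF K}.Infinite ∧
    (∀ K : IntermediateField ℚ (AlgebraicClosure ℚ), QF K → Module.finrank ℚ K = 2 ∧
      ∀ x ∈ K, ∀ y ∈ K,
        (∀ h : ((E 0)⁄(AlgebraicClosure ℚ)).toAffine.Nonsingular x y, .some x y h ∈ G 0) ∧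
        ∀ h : ((E 1)⁄(AlgebraicClosure ℚ)).toAffine.Nonsingular x y, .some x y h ∈ G 1) ∧
    ∀ (N : ℕ) (s : Fin N → ℕ) (z : Z0N fun i => (E (s i))⁄(AlgebraicClosure ℚ)),
      (∀ p ∈ z.support, ∀ i, p i ∈ G (s i)) →
      z.sum (fun _ n => n) = 0 → (∀ i, z.sum (fun p n => n • p i) = 0) →
      ∃ M : ℕ, 0 < M ∧ M • z ∈ RatEqN fun i => (E (s i))⁄(AlgebraicClosure ℚ) := by
  obtain ⟨f, hj, hr, hf0, hf1⟩ := exists_seqK
  have key : ∀ M : MemK, M = m0 → M.W = ⟨0, -10660, 0, 28138500, 0⟩ ∧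
      (∀ P : Fin 5 → (M.W⁄(AlgebraicClosure ℚ)).toAffine.Point, (∀ i, P i ∈ sq M.W M.P) →
        ¬ LinearIndependent ℤ P) ∧
      ∀ K : IntermediateField ℚ (AlgebraicClosure ℚ), QF K → ∀ x ∈ K, ∀ y ∈ K,
        ∀ h : (M.W⁄(AlgebraicClosure ℚ)).toAffine.Nonsingular x y, .some x y h ∈ sq M.W M.P := by
    rintro _ rfl
    refine ⟨e0_cc, fun P hP => not_linInd_sat _ P hP, ?_⟩
    rintro K ⟨p, s, hp, hmod, hs, rfl⟩ x hx y hy h
    obtain ⟨m, hm, h0⟩ := e0_mul_mem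
    exact mem_sq_of_up hm h0 (e0_up hp hmod hs hx hy h)
  have key1 : ∀ M : MemK, M = m1 → M.W = ⟨0, 1430, 0, -5272800, 0⟩ ∧
      (∃ P : Fin 3 → M.W.toAffine.Point, LinearIndependent ℤ P ∧ ∀ i, up M.W (P i) ∈ sq M.W M.P) ∧
      (∀ P : Fin 4 → (M.W⁄(AlgebraicClosure ℚ)).toAffine.Point, (∀ i, P i ∈ sq M.W M.P) →
        ¬ LinearIndependent ℤ P) ∧
      ∀ K : IntermediateField ℚ (AlgebraicClosure ℚ), QF K → ∀ x ∈ K, ∀ y ∈ K,
        ∀ h : (M.W⁄(AlgebraicClosure ℚ)).toAffine.Nonsingular x y, .some x y h ∈ sq M.W M.P := by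
    rintro _ rfl
    refine ⟨e1_cc, ⟨e1_pt, e1_linInd, fun i => le_satur _ (AddSubgroup.subset_closure ⟨i, rfl⟩)⟩,
      fun P hP => not_linInd_sat _ P hP, ?_⟩
    rintro K ⟨p, s, hp, hmod, hs, rfl⟩ x hx y hy h
    obtain ⟨m, hm, h0⟩ := e1_mul_mem
    exact mem_sq_of_up hm h0 (e1_up hp hmod hs hx hy h)
  obtain ⟨k1, k2, k3⟩ := key _ hf0
  obtain ⟨l1, l2, l3, l4⟩ := key1 _ hf1
  refine ⟨fun n => (f n).W, fun n => sq (f n).W (f n).P, fun n => (f n).dat.ell, hj,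
    fun n g k hk h => satur_sat hk h, ?_, ⟨k1, k2⟩, ⟨l1, l2, l3⟩, QF_infinite,
    fun K hK => ⟨hK.finrank, fun x hx y hy => ⟨k3 K hK x hx y hy, l4 K hK x hx y hy⟩⟩, ?_⟩
  · intro n hn
    refine ⟨fun i => (f n).P (Fin.castLE (hr n hn) i), ?_, fun i => ?_⟩
    · exact (f n).dat.ind.comp _ (Fin.castLE_injective _)
    · exact le_satur _ (AddSubgroup.subset_closure ⟨_, rfl⟩)
  · intro N s z hz hd hs
    exact cycleSat (fun i => (f (s i)).W) (fun i => (f (s i)).dat.ell) (8 / 13) _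
      (fun i => (f (s i)).P) (fun i l => (f (s i)).dat.set l) z hz hd hs

end Pool.Agent.ZCQK
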