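import Mathlib

/-!
# Local conditions for two-descents
-/

set_option autoImplicit false

namespace Pool.Agent.ZCQK

/-- the exponent of `p` in `A` -/
def vv (p : ℕ) (A : ℤ) : ℕ := A.natAbs.factorization p

/-- the part of `A` which is prime to `p` -/
def uu (p : ℕ) (A : ℤ) : ℤ := A / p ^ vv p A

private theorem pow_vv_dvd (p : ℕ) (A : ℤ) : (p : ℤ) ^ vv p A ∣ A := by
  have h : p ^ vv p A ∣ A.natAbs := Nat.ordProj_dvd A.natAbs p
  have h1 := Int.natCast_dvd.2 h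
  push_cast at h1
  exact h1

private theorem pow_vv_ne (p : ℕ) (A : ℤ) : (p : ℤ) ^ vv p A ≠ 0 := by
  by_cases hp : p = 0
  · subst hp
    have h : vv 0 A = 0 := Nat.factorization_eq_zero_of_not_prime _ Nat.not_prime_zero
    rw [h, pow_zero]
    exact one_ne_zero
  · exact pow_ne_zero _ (by exact_mod_cast hp)

private theorem eq_uu' (p : ℕ) (A : ℤ) : A = p ^ vv p A * uu p A :=
  (Int.mul_ediv_cancel' (pow_vv_dvd p A)).symm

theorem eq_uu {p : ℕ} (hp : p.Prime) {A : ℤ} (hA : A ≠ 0) : A = p ^ vv p A * uu p A :=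
  eq_uu' p A

theorem not_dvd_uu {p : ℕ} (hp : p.Prime) {A : ℤ} (hA : A ≠ 0) : ¬ (p : ℤ) ∣ uu p A := by
  rintro ⟨c, hc⟩
  have h1 := eq_uu' p A
  rw [hc] at h1
  have h2 : (p : ℤ) ^ (vv p A + 1) ∣ A := ⟨c, by rw [pow_succ, mul_assoc]; exact h1⟩
  have h3 : p ^ (vv p A + 1) ∣ A.natAbs := by
    apply Int.natCast_dvd.1
    push_cast
    exact h2
  have h4 := (hp.pow_dvd_iff_le_factorization (Int.natAbs_ne_zero.2 hA)).1 h3
  unfold vv at h4
  omega

theorem vv_mul {p : ℕ} {A B : ℤ} (hA : A ≠ 0) (hB : B ≠ 0) : vv p (A * B) = vv p A + vv p B := by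
  unfold vv
  rw [Int.natAbs_mul, Nat.factorization_mul (Int.natAbs_ne_zero.2 hA) (Int.natAbs_ne_zero.2 hB)]
  rfl

theorem uu_mul {p : ℕ} {A B : ℤ} (hA : A ≠ 0) (hB : B ≠ 0) : uu p (A * B) = uu p A * uu p B := by
  have h1 := eq_uu' p A
  have h2 := eq_uu' p B
  have h3 := eq_uu' p (A * B)
  rw [vv_mul hA hB, pow_add] at h3
  have h4 : ((p : ℤ) ^ vv p A * (p : ℤ) ^ vv p B) * uu p (A * B) =
      ((p : ℤ) ^ vv p A * (p : ℤ) ^ vv p B) * (uu p A * uu p B) := by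
    calc ((p : ℤ) ^ vv p A * (p : ℤ) ^ vv p B) * uu p (A * B) = A * B := h3.symm
      _ = (p ^ vv p A * uu p A) * (p ^ vv p B * uu p B) := by rw [← h1, ← h2]
      _ = _ := by ring
  exact mul_left_cancel₀ (mul_ne_zero (pow_vv_ne p A) (pow_vv_ne p B)) h4

theorem vv_eq_zero {p : ℕ} {A : ℤ} (h : ¬ (p : ℤ) ∣ A) : vv p A = 0 := by
  apply Nat.factorization_eq_zero_of_not_dvd
  intro h1
  exact h (Int.natCast_dvd.2 h1)

theorem vv_uu_of_eq {p k : ℕ} (hp : p.Prime) {A A' : ℤ} (h : A = p ^ k * A')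
    (h' : ¬ (p : ℤ) ∣ A') : vv p A = k ∧ uu p A = A' := by
  have hA' : A' ≠ 0 := by
    rintro rfl
    exact h' (dvd_zero _)
  have hpk : ((p : ℤ) ^ k) ≠ 0 := pow_ne_zero _ (by exact_mod_cast hp.ne_zero)
  have h1 : vv p ((p : ℤ) ^ k) = k := by
    unfold vv
    rw [Int.natAbs_pow, Int.natAbs_natCast, hp.factorization_pow, Finsupp.single_eq_same]
  have h2 : vv p A = k := by
    rw [h, vv_mul hpk hA', h1, vv_eq_zero h', add_zero]
  refine ⟨h2, ?_⟩
  unfold uu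
  rw [h2, h, Int.mul_ediv_cancel_left _ hpk]

private theorem leg_congr {q : ℕ} [Fact q.Prime] {a b : ℤ} (h : (q : ℤ) ∣ a - b) :
    legendreSym q a = legendreSym q b := by
  have h1 : ((a : ℤ) : ZMod q) = ((b : ℤ) : ZMod q) := by
    have h2 := (ZMod.intCast_zmod_eq_zero_iff_dvd (a - b) q).2 h
    rw [Int.cast_sub, sub_eq_zero] at h2
    exact h2
  unfold legendreSym
  rw [h1]

private theorem leg_ne {q : ℕ} [Fact q.Prime] {a : ℤ} (h : ¬ (q : ℤ) ∣ a) :
    ((a : ℤ) : ZMod q) ≠ 0 := fun h1 => h ((ZMod.intCast_zmod_eq_zero_iff_dvd a q).1 h1)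

/- PROOF. If `q ∣ W` then `q ∤ e` (`q ∣ e` gives `q ∣ U`), `q ∤ c'` (its symbol is `1`), so
`q ∤ U` and `q ∤ V`; so `vv q W` is even (`vv q` of `h`), and the symbols of `U` and `V` are equal
(`U ≡ V mod q`), so the symbol of `uu q W` is `1` (symbol of `h`, without the `q`-part). If `q ∤ W`: if `q ∤ U` then
`q ∤ V`, `U ≡ V mod q`, and the symbol of `W` is `1` by `h`. If `q ∣ U` then `q ∤ e` and
`W ≡ c' * e ^ 2 mod q`. -/
theorem loc_mult {q : ℕ} [Fact q.Prime] {U V W e f c c' : ℤ} (hU : U ≠ 0) (hV : V ≠ 0)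
    (hW : W ≠ 0) (h : f ^ 2 = U * V * W) (hUV : U - V = c * e ^ 2) (hWU : W - U = c' * e ^ 2)
    (hc : (q : ℤ) ∣ c) (hc' : legendreSym q c' = 1) (he : (q : ℤ) ∣ e → ¬ (q : ℤ) ∣ U) :
    Even (vv q W) ∧ legendreSym q (uu q W) = 1 := by
  have hq : q.Prime := Fact.out
  have hqi : Prime (q : ℤ) := Nat.prime_iff_prime_int.1 hq
  have hc'0 : ¬ (q : ℤ) ∣ c' := by
    intro h1
    have h2 := (legendreSym.eq_zero_iff q c').2 ((ZMod.intCast_zmod_eq_zero_iff_dvd c' q).2 h1)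
    rw [hc'] at h2
    exact one_ne_zero h2
  have hdUV : (q : ℤ) ∣ U - V := by
    rw [hUV]
    exact hc.mul_right _
  have hVU : ¬ (q : ℤ) ∣ U → ¬ (q : ℤ) ∣ V := by
    intro h1 h2
    exact h1 (by simpa using dvd_add hdUV h2)
  have hf : f ≠ 0 := by
    rintro rfl
    rw [zero_pow two_ne_zero] at h
    exact mul_ne_zero (mul_ne_zero hU hV) hW h.symm
  -- the general case
  have main : ¬ (q : ℤ) ∣ U → Even (vv q W) ∧ legendreSym q (uu q W) = 1 := by
    intro hU'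
    have hV' := hVU hU'
    have h1 : vv q (f ^ 2) = vv q W := by
      rw [h, vv_mul (mul_ne_zero hU hV) hW, vv_mul hU hV, vv_eq_zero hU', vv_eq_zero hV',
        zero_add, zero_add]
    have h2 : vv q (f ^ 2) = vv q f + vv q f := by
      rw [sq, vv_mul hf hf]
    have huU : uu q U = U := (vv_uu_of_eq (k := 0) hq (by rw [pow_zero, one_mul]) hU').2
    have huV : uu q V = V := (vv_uu_of_eq (k := 0) hq (by rw [pow_zero, one_mul]) hV').2
    have h3 : uu q (f ^ 2) = U * V * uu q W := by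
      rw [h, uu_mul (mul_ne_zero hU hV) hW, uu_mul hU hV, huU, huV]
    have h4 : uu q (f ^ 2) = uu q f ^ 2 := by
      rw [sq, uu_mul hf hf, sq]
    have h5 : legendreSym q (uu q f ^ 2) = 1 :=
      legendreSym.sq_one' q (leg_ne (not_dvd_uu hq hf))
    rw [← h4, h3, legendreSym.mul, legendreSym.mul, leg_congr hdUV, ← sq,
      legendreSym.sq_one q (leg_ne hV'), one_mul] at h5
    exact ⟨⟨vv q f, by rw [← h1, h2]⟩, h5⟩
  by_cases hU' : (q : ℤ) ∣ U
  · have he' : ¬ (q : ℤ) ∣ e := fun h1 => he h1 hU'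
    have hW' : ¬ (q : ℤ) ∣ W := by
      intro h1
      have h2 : (q : ℤ) ∣ c' * e ^ 2 := by
        rw [← hWU]
        exact dvd_sub h1 hU'
      rcases hqi.dvd_or_dvd h2 with h3 | h3
      · exact hc'0 h3
      · exact he' (hqi.dvd_of_dvd_pow h3)
    have huW : uu q W = W := (vv_uu_of_eq (k := 0) hq (by rw [pow_zero, one_mul]) hW').2
    refine ⟨by rw [vv_eq_zero hW']; exact Even.zero, ?_⟩
    have h1 : (q : ℤ) ∣ W - c' * e ^ 2 := by
      rw [← hWU, sub_sub_cancel]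
      exact hU'
    rw [huW, leg_congr h1, legendreSym.mul, hc', legendreSym.sq_one' q (leg_ne he'), one_mul]
  · exact main hU'

end Pool.Agent.ZCQK
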