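import Pool.Agent.ZCQ.Final

/-!
# Saturations
-/

set_option autoImplicit false

noncomputable section

namespace Pool.Agent.ZCQK

open WeierstrassCurve Pool.Agent.ZC Pool.Agent.ZCQ
open scoped Classical

theorem satur_sat {A : Type} [AddCommGroup A] {H : AddSubgroup A} {g : A} {k : ℕ} (hk : 0 < k)
    (h : k • g ∈ satur H) : g ∈ satur H := by
  obtain ⟨l, hl, h1⟩ := h
  refine ⟨l * k, Nat.mul_pos hl hk, ?_⟩
  rw [mul_smul]
  exact h1

theorem le_satur {A : Type} [AddCommGroup A] (H : AddSubgroup A) : H ≤ satur H := by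
  intro x hx
  refine ⟨1, one_pos, ?_⟩
  rw [one_smul]
  exact hx

theorem exists_common {A : Type} [AddCommGroup A] {H : AddSubgroup A} (T : Finset A)
    (h : ∀ t ∈ T, t ∈ satur H) : ∃ m : ℕ, 0 < m ∧ ∀ t ∈ T, m • t ∈ H := by
  induction T using Finset.induction_on with
  | empty => exact ⟨1, one_pos, fun t ht => absurd ht (Finset.notMem_empty t)⟩
  | insert a T ha ih =>
    obtain ⟨m, hm, h1⟩ := ih fun t ht => h t (Finset.mem_insert_of_mem ht)
    obtain ⟨k, hk, h2⟩ := h a (Finset.mem_insert_self a T)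
    refine ⟨m * k, Nat.mul_pos hm hk, fun t ht => ?_⟩
    rcases Finset.mem_insert.1 ht with rfl | ht
    · rw [mul_smul]
      exact H.nsmul_mem h2 m
    · rw [mul_comm, mul_smul]
      exact H.nsmul_mem (h1 t ht) k

theorem not_linInd_sat {A : Type} [AddCommGroup A] {r : ℕ} (P : Fin r → A)
    (Q : Fin (r + 1) → A) (hQ' : ∀ i, Q i ∈ satur (AddSubgroup.closure (Set.range P))) :
    ¬ LinearIndependent ℤ Q := by
  intro hQ
  obtain ⟨M, hM, h⟩ := exists_common (Finset.univ.image Q) (fun t ht => by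
    obtain ⟨i, -, rfl⟩ := Finset.mem_image.1 ht
    exact hQ' i)
  have h1 : LinearIndependent ℤ (fun i => M • Q i) := by
    rw [Fintype.linearIndependent_iff] at hQ ⊢
    intro g hg i
    have h2 := hQ (fun i => g i * M) (by
      rw [← hg]
      refine Finset.sum_congr rfl fun i _ => ?_
      rw [mul_smul, natCast_zsmul]) i
    rcases mul_eq_zero.1 h2 with h3 | h3
    · exact h3
    · omega
  have h2 : Set.range (fun i => M • Q i) ≤ Submodule.span ℤ (Set.range P) := by
    rintro _ ⟨i, rfl⟩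
    have h3 := h (Q i) (Finset.mem_image.2 ⟨i, Finset.mem_univ i, rfl⟩)
    have h4 : AddSubgroup.closure (Set.range P) ≤
        (Submodule.span ℤ (Set.range P)).toAddSubgroup := by
      rw [AddSubgroup.closure_le]
      exact Submodule.subset_span
    exact h4 h3
  have h3 := linearIndependent_le_span' (fun i => M • Q i) h1 (Set.range P) h2
  have h4 : Fintype.card (Set.range P) ≤ r := by
    have h5 := Fintype.card_range_le P
    rwa [Fintype.card_fin] at h5
  have h6 : (Cardinal.mk (Fin (r + 1))) = ((r + 1 : ℕ) : Cardinal) := Cardinal.mk_fin _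
  rw [h6] at h3
  have h7 : r + 1 ≤ Fintype.card (Set.range P) := by exact_mod_cast h3
  omega

/-- The saturation in `E(ℚ̄)` of the subgroup generated by the images of the rational points
`P i`. -/
def sq (W : WeierstrassCurve ℚ) {r : ℕ} (P : Fin r → W.toAffine.Point) :
    AddSubgroup (W⁄(AlgebraicClosure ℚ)).toAffine.Point :=
  satur (AddSubgroup.closure (Set.range fun i => up W (P i)))

/-- `up` as an additive map. -/
def upH (W : WeierstrassCurve ℚ) :
    W.toAffine.Point →+ (W⁄(AlgebraicClosure ℚ)).toAffine.Point where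
  toFun := up W
  map_zero' := rfl
  map_add' := up_add W

theorem up_mem_sq {W : WeierstrassCurve ℚ} {r : ℕ} {P : Fin r → W.toAffine.Point} {g : W.toAffine.Point}
    {m : ℕ} (hm : 0 < m) (h : m • g ∈ AddSubgroup.closure (Set.range P)) : up W g ∈ sq W P := by
  refine ⟨m, hm, ?_⟩
  have h1 : m • up W g = upH W (m • g) := by
    rw [map_nsmul]
    rfl
  rw [h1]
  have h2 : AddSubgroup.closure (Set.range P) ≤
      (AddSubgroup.closure (Set.range fun i => up W (P i))).comap (upH W) := by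
    rw [AddSubgroup.closure_le]
    rintro _ ⟨i, rfl⟩
    exact AddSubgroup.subset_closure ⟨i, rfl⟩
  exact h2 h

theorem cycleSat {N : ℕ} (W : Fin N → WeierstrassCurve ℚ) (hW : ∀ i, (W i).IsElliptic) (u : ℚ)
    (r : Fin N → ℕ) (P : (i : Fin N) → Fin (r i) → (W i).toAffine.Point)
    (hP : ∀ i l, up (W i) (P i l) ∈
      SetE ((W i)⁄(AlgebraicClosure ℚ)) (algebraMap ℚ (AlgebraicClosure ℚ) u))
    (z : Z0N fun i => (W i)⁄(AlgebraicClosure ℚ))
    (hz : ∀ p ∈ z.support, ∀ i, p i ∈ sq (W i) (P i))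
    (hd : z.sum (fun _ n => n) = 0) (hs : ∀ i, z.sum (fun p n => n • p i) = 0) :
    ∃ M : ℕ, 0 < M ∧ M • z ∈ RatEqN fun i => (W i)⁄(AlgebraicClosure ℚ) := by
  have key : ∀ i, ∃ m : ℕ, 0 < m ∧ ∀ p ∈ z.support,
      m • p i ∈ AddSubgroup.closure (Set.range fun l => up (W i) (P i l)) := by
    intro i
    obtain ⟨m, hm, h⟩ := exists_common (z.support.image fun p => p i) (fun t ht => by
      obtain ⟨p, hp, rfl⟩ := Finset.mem_image.1 ht
      exact hz p hp i)
    exact ⟨m, hm, fun p hp => h _ (Finset.mem_image.2 ⟨p, hp, rfl⟩)⟩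
  choose m hm h using key
  refine ⟨2 * ∏ i, m i, Nat.mul_pos two_pos (Finset.prod_pos fun i _ => hm i), ?_⟩
  refine cycleN (fun i => (W i)⁄(AlgebraicClosure ℚ)) (fun i x y => ?_)
    (fun i => SetE ((W i)⁄(AlgebraicClosure ℚ)) (algebraMap ℚ (AlgebraicClosure ℚ) u))
    (fun i j _ P hP Q hQ => SetE.sym hP hQ) m z (fun p hp i => ?_) hd hs
  · have h1 := hW i
    have h2 : ((W i).map (algebraMap ℚ (AlgebraicClosure ℚ))).IsElliptic := inferInstance
    have h3 : ((W i)⁄(AlgebraicClosure ℚ)).IsElliptic := h2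
    exact two_add_left ((W i)⁄(AlgebraicClosure ℚ)) x y 0
  · refine AddSubgroup.closure_mono ?_ (h i p hp)
    rintro _ ⟨l, rfl⟩
    exact hP i l

end Pool.Agent.ZCQK
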